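import Pool.Agent.H68.RM.Cube
import Pool.Agent.H95.GN.Lag

/-!
# Cubes which meet a sublevel set of a polynomial of bounded degree, 2

`good_corner`: if all the derivatives grow slowly at a point, then the polynomial is almost constant
on the cube at this point. `card_bad`: there are few other points of the grid.
-/

set_option autoImplicit false

namespace Pool.RM

open Finset Real MvPolynomial

/-- The chain rule for curves. -/
theorem der_aeval {m : ℕ} (Q : MvPolynomial (Fin m) ℝ) (g : Fin m → Polynomial ℝ) :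
    Polynomial.derivative (aeval g Q) =
      ∑ i, aeval g (pderiv i Q) * Polynomial.derivative (g i) := by
  classical
  induction Q using MvPolynomial.induction_on with
  | C a =>
    have h1 : aeval g (C a : MvPolynomial (Fin m) ℝ) = Polynomial.C a := by
      rw [aeval_C]
      rfl
    rw [h1, Polynomial.derivative_C]
    symm
    refine Finset.sum_eq_zero fun i _ => ?_
    rw [pderiv_C, map_zero, zero_mul]
  | add p q hp hq =>
    rw [map_add, map_add, hp, hq, ← Finset.sum_add_distrib]
    refine Finset.sum_congr rfl fun i _ => ?_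
    rw [map_add, map_add, add_mul]
  | mul_X p j hp =>
    rw [map_mul, aeval_X, Polynomial.derivative_mul, hp, Finset.sum_mul]
    have h1 : aeval g p * Polynomial.derivative (g j) = ∑ i,
        (if i = j then aeval g p * Polynomial.derivative (g j) else 0) := by
      rw [Finset.sum_ite_eq' univ j]
      simp
    rw [h1, ← Finset.sum_add_distrib]
    refine Finset.sum_congr rfl fun i _ => ?_
    rw [pderiv_mul, map_add, map_mul, map_mul, aeval_X, add_mul]
    by_cases h : i = j
    · subst h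
      rw [if_pos rfl, pderiv_X_self, map_one]
      ring
    · rw [if_neg h, pderiv_X_of_ne (Ne.symm h), map_zero]
      ring

theorem totalDegree_pd {σ : Type*} (p : MvPolynomial σ ℝ) (i : σ) :
    (pderiv i p).totalDegree ≤ p.totalDegree := by
  classical
  rw [p.as_sum, map_sum]
  refine (totalDegree_finsetSum _ _).trans ?_
  rw [← p.as_sum]
  refine Finset.sup_le fun s hs => ?_
  rw [pderiv_monomial]
  refine (totalDegree_monomial_le _ _).trans ?_
  refine le_trans ?_ (le_totalDegree hs)
  have h1 : (s - Finsupp.single i 1) ≤ s := tsub_le_self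
  exact Finsupp.sum_le_sum_index h1 (fun j _ => monotone_id) (fun j _ => rfl)

/-- Iterated partial derivatives. -/
noncomputable def pdl {d : ℕ} (f : MvPolynomial (Fin d) ℝ) : List (Fin d) → MvPolynomial (Fin d) ℝ
  | [] => f
  | i :: L => pderiv i (pdl f L)

theorem totalDegree_pdl {d : ℕ} (f : MvPolynomial (Fin d) ℝ) (L : List (Fin d)) :
    (pdl f L).totalDegree ≤ f.totalDegree := by
  induction L with
  | nil => exact le_rfl
  | cons i L ih => exact (totalDegree_pd _ _).trans ih

/-- Iterated directional derivatives. -/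
noncomputable def dhi {d : ℕ} (h : Fin d → ℝ) : ℕ → MvPolynomial (Fin d) ℝ → MvPolynomial (Fin d) ℝ
  | 0, f => f
  | j + 1, f => ∑ i, C (h i) * dhi h j (pderiv i f)

/-- The line through `y` in the direction `h`. -/
noncomputable def lin {d : ℕ} (y h : Fin d → ℝ) : Fin d → Polynomial ℝ :=
  fun i => Polynomial.C (y i) + Polynomial.C (h i) * Polynomial.X

theorem lin_deg {d : ℕ} (y h : Fin d → ℝ) (i : Fin d) : (lin y h i).natDegree ≤ 1 := by
  unfold lin
  refine (Polynomial.natDegree_add_le _ _).trans (max_le ?_ ?_)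
  · rw [Polynomial.natDegree_C]
    exact Nat.zero_le _
  · exact (Polynomial.natDegree_C_mul_le _ _).trans Polynomial.natDegree_X_le

theorem iter_der {d : ℕ} (y h : Fin d → ℝ) : ∀ (j : ℕ) (f : MvPolynomial (Fin d) ℝ),
    Polynomial.derivative^[j] (aeval (lin y h) f) = aeval (lin y h) (dhi h j f) := by
  intro j
  induction j with
  | zero => intro f; rfl
  | succ j ih =>
    intro f
    rw [Function.iterate_succ_apply, der_aeval]
    have h1 : ∀ i, aeval (lin y h) (pderiv i f) * Polynomial.derivative (lin y h i) =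
        Polynomial.C (h i) * aeval (lin y h) (pderiv i f) := by
      intro i
      unfold lin
      rw [Polynomial.derivative_add, Polynomial.derivative_C, Polynomial.derivative_C_mul_X,
        zero_add, mul_comm]
    rw [Finset.sum_congr rfl fun i _ => h1 i, Polynomial.iterate_derivative_sum]
    unfold dhi
    rw [map_sum]
    refine Finset.sum_congr rfl fun i _ => ?_
    rw [Polynomial.iterate_derivative_C_mul, ih, map_mul, aeval_C]
    rfl

theorem lin_eval {d : ℕ} (y h : Fin d → ℝ) (f : MvPolynomial (Fin d) ℝ) (t : ℝ) :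
    (aeval (lin y h) f).eval t = eval (fun i => y i + h i * t) f := by
  rw [Pool.UNJ.eval_aeval_poly]
  congr 2
  funext i
  unfold lin
  simp

/-- The bound for the iterated directional derivatives. -/
theorem dhi_le {d D : ℕ} {y h : Fin d → ℝ} {f : MvPolynomial (Fin d) ℝ} {N θ : ℝ} (hN : 0 < N)
    (hθ : 0 ≤ θ) (hh : ∀ i, |h i| ≤ 1 / N)
    (hg : ∀ L : List (Fin d), L.length < D → ∀ i,
      |eval y (pderiv i (pdl f L))| ≤ θ * N * |eval y (pdl f L)|) :
    ∀ (j : ℕ) (L : List (Fin d)), L.length + j ≤ D →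
      |eval y (dhi h j (pdl f L))| ≤ (d * θ) ^ j * |eval y (pdl f L)| := by
  intro j
  induction j with
  | zero => intro L _; unfold dhi; simp
  | succ j ih =>
    intro L hL
    unfold dhi
    rw [map_sum]
    have h1 : ∀ i, |eval y (C (h i) * dhi h j (pderiv i (pdl f L)))| ≤
        θ * (d * θ) ^ j * |eval y (pdl f L)| := by
      intro i
      rw [map_mul, eval_C, abs_mul]
      have h2 := ih (i :: L) (by rw [List.length_cons]; omega)
      have h3 : pdl f (i :: L) = pderiv i (pdl f L) := rfl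
      rw [h3] at h2
      have h4 := hg L (by omega) i
      calc |h i| * |eval y (dhi h j (pderiv i (pdl f L)))| ≤
            (1 / N) * ((d * θ) ^ j * (θ * N * |eval y (pdl f L)|)) := by
            refine mul_le_mul (hh i) (h2.trans ?_) (abs_nonneg _) (by positivity)
            exact mul_le_mul_of_nonneg_left h4 (by positivity)
        _ = _ := by field_simp
    calc _ ≤ ∑ i, |eval y (C (h i) * dhi h j (pderiv i (pdl f L)))| :=
          Finset.abs_sum_le_sum_abs _ _
      _ ≤ ∑ _i : Fin d, θ * (d * θ) ^ j * |eval y (pdl f L)| := Finset.sum_le_sum fun i _ => h1 i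
      _ = _ := by
        rw [Finset.sum_const, Finset.card_univ, Fintype.card_fin, nsmul_eq_mul]
        ring

theorem geo_le (D : ℕ) : ∑ j ∈ range D, (1 / 4 : ℝ) ^ (j + 1) ≤ 1 / 2 - (1 / 4) ^ D / 2 := by
  induction D with
  | zero => simp
  | succ D ih =>
    rw [Finset.sum_range_succ]
    have h1 : (0 : ℝ) < (1 / 4) ^ D := by positivity
    rw [pow_succ]
    linarith

/-- The polynomial is almost constant on the cube. -/
theorem good_corner {d D : ℕ} {y : Fin d → ℝ} {f : MvPolynomial (Fin d) ℝ} {N θ : ℝ} (hN : 0 < N)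
    (hθ : 0 ≤ θ) (hθ' : d * θ ≤ 1 / 4) (hf : f.totalDegree ≤ D)
    (hg : ∀ L : List (Fin d), L.length < D → ∀ i,
      |eval y (pderiv i (pdl f L))| ≤ θ * N * |eval y (pdl f L)|)
    (x : Fin d → ℝ) (hx : ∀ i, |x i - y i| ≤ 1 / N) : |eval y f| ≤ 2 * |eval x f| := by
  obtain ⟨h, hh⟩ : ∃ h : Fin d → ℝ, h = fun i => x i - y i := ⟨_, rfl⟩
  obtain ⟨q, hq⟩ : ∃ q : Polynomial ℝ, q = aeval (lin y h) f := ⟨_, rfl⟩
  have hqd : q.natDegree ≤ D := by
    rw [hq]
    exact Pool.UNJ.natDegree_aeval_le _ _ (lin_deg y h) hf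
  have h0 : q.eval 0 = eval y f := by
    rw [hq, lin_eval]
    congr 2
    funext i
    simp
  have h1 : q.eval 1 = eval x f := by
    rw [hq, lin_eval]
    congr 2
    funext i
    rw [hh]
    ring
  have hc : ∀ j, j ≤ D → |q.coeff j| ≤ (1 / 4) ^ j * |eval y f| := by
    intro j hj
    have h2 := Polynomial.coeff_iterate_derivative (p := q) (k := j) 0
    rw [zero_add, Nat.descFactorial_self, nsmul_eq_mul] at h2
    have h3 : (Polynomial.derivative^[j] q).coeff 0 = eval y (dhi h j f) := by
      rw [hq, iter_der, Polynomial.coeff_zero_eq_eval_zero, lin_eval]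
      congr 2
      funext i
      simp
    rw [h3] at h2
    have h4 := dhi_le hN hθ (h := h) (fun i => by rw [hh]; exact hx i) hg j [] (by simpa using hj)
    have h5 : pdl f [] = f := rfl
    rw [h5, h2, abs_mul, Nat.abs_cast] at h4
    have h6 : (1 : ℝ) ≤ (j.factorial : ℝ) := by exact_mod_cast Nat.one_le_iff_ne_zero.2 j.factorial_ne_zero
    calc |q.coeff j| ≤ (j.factorial : ℝ) * |q.coeff j| :=
          le_mul_of_one_le_left (abs_nonneg _) h6
      _ ≤ (d * θ) ^ j * |eval y f| := h4
      _ ≤ (1 / 4) ^ j * |eval y f| := by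
          refine mul_le_mul_of_nonneg_right ?_ (abs_nonneg _)
          exact pow_le_pow_left₀ (by positivity) hθ' j
  have h2 : q.eval 1 = q.eval 0 + ∑ j ∈ range D, q.coeff (j + 1) := by
    rw [Polynomial.eval_eq_sum_range' (Nat.lt_succ_of_le hqd), Finset.sum_range_succ',
      ← Polynomial.coeff_zero_eq_eval_zero]
    simp [add_comm]
  have h3 : |∑ j ∈ range D, q.coeff (j + 1)| ≤ |eval y f| / 2 := by
    calc _ ≤ ∑ j ∈ range D, |q.coeff (j + 1)| := Finset.abs_sum_le_sum_abs _ _
      _ ≤ ∑ j ∈ range D, (1 / 4 : ℝ) ^ (j + 1) * |eval y f| :=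
          Finset.sum_le_sum fun j hj => hc _ (Nat.succ_le_of_lt (Finset.mem_range.1 hj))
      _ = (∑ j ∈ range D, (1 / 4 : ℝ) ^ (j + 1)) * |eval y f| := by rw [Finset.sum_mul]
      _ ≤ (1 / 2) * |eval y f| := by
          refine mul_le_mul_of_nonneg_right ((geo_le D).trans ?_) (abs_nonneg _)
          have : (0 : ℝ) < (1 / 4) ^ D := by positivity
          linarith
      _ = _ := by ring
  rw [h0, h1] at h2
  have h4 : eval y f = eval x f - ∑ j ∈ range D, q.coeff (j + 1) := by rw [h2]; ring
  have h5 : |eval y f| ≤ |eval x f| + |∑ j ∈ range D, q.coeff (j + 1)| := by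
    conv_lhs => rw [h4]
    exact abs_sub _ _
  linarith

/-- The points at which a derivative is large. -/
theorem card_bad {K r d : ℕ} {θ : ℝ} (hθ : 0 < θ) (g : MvPolynomial (Fin d) ℝ)
    (hg : g.totalDegree ≤ K) (i : Fin d) :
    ((univ.filter fun k : Fin d → Fin (2 ^ r) =>
      θ * 2 ^ r * |eval (gp k) g| < |eval (gp k) (pderiv i g)|).card : ℝ) * 2 ^ r ≤
      K * (2 * (K / θ) + 1) * (2 ^ r) ^ d := by
  classical
  cases d with
  | zero => exact i.elim0
  | succ d =>
    have h1 : ((univ.filter fun k : Fin (d + 1) → Fin (2 ^ r) =>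
        θ * 2 ^ r * |eval (gp k) g| < |eval (gp k) (pderiv i g)|).card : ℝ) ≤
          K * (2 * (K / θ) + 1) * ((2 ^ r : ℕ) : ℝ) ^ d := by
      refine card_line i _ _ fun b => ?_
      obtain ⟨φ, hφ⟩ : ∃ φ : Fin (d + 1) → Polynomial ℝ,
        φ = i.insertNth Polynomial.X (fun l => Polynomial.C (gp b l)) := ⟨_, rfl⟩
      obtain ⟨q, hq⟩ : ∃ q : Polynomial ℝ, q = aeval φ g := ⟨_, rfl⟩
      have hφi : φ i = Polynomial.X := by rw [hφ, Fin.insertNth_apply_same]
      have hφs : ∀ l, φ (i.succAbove l) = Polynomial.C (gp b l) := by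
        intro l
        rw [hφ, Fin.insertNth_apply_succAbove]
      have hφd : ∀ l, (φ l).natDegree ≤ 1 := by
        intro l
        rcases Fin.eq_self_or_eq_succAbove i l with rfl | ⟨l, rfl⟩
        · rw [hφi]
          exact Polynomial.natDegree_X_le
        · rw [hφs, Polynomial.natDegree_C]
          exact Nat.zero_le _
      have hqd : q.natDegree ≤ K := by
        rw [hq]
        exact Pool.UNJ.natDegree_aeval_le _ _ hφd hg
      have hgp : ∀ t : Fin (2 ^ r), (fun l => (φ l).eval (((t : ℕ) : ℝ) / 2 ^ r)) =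
          gp (i.insertNth t b : Fin (d + 1) → Fin (2 ^ r)) := by
        intro t
        funext l
        rcases Fin.eq_self_or_eq_succAbove i l with rfl | ⟨l, rfl⟩
        · rw [hφi, Polynomial.eval_X]
          unfold gp
          rw [Fin.insertNth_apply_same]
        · rw [hφs, Polynomial.eval_C]
          unfold gp
          rw [Fin.insertNth_apply_succAbove]
      have hder : Polynomial.derivative q = aeval φ (pderiv i g) := by
        rw [hq, der_aeval, Fin.sum_univ_succAbove _ i, hφi, Polynomial.derivative_X, mul_one]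
        have : ∑ l, aeval φ (pderiv (i.succAbove l) g) * Polynomial.derivative (φ (i.succAbove l)) =
            0 := by
          refine Finset.sum_eq_zero fun l _ => ?_
          rw [hφs, Polynomial.derivative_C, mul_zero]
        rw [this, add_zero]
      have h2 := card_der (r := r) hqd hθ
      refine le_trans (le_of_eq ?_) h2
      congr 2
      ext t
      rw [Finset.mem_filter, Finset.mem_filter, hder, hq, Pool.UNJ.eval_aeval_poly,
        Pool.UNJ.eval_aeval_poly, hgp]
    push_cast at h1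
    have hr : (0 : ℝ) < 2 ^ r := by positivity
    calc _ ≤ (K * (2 * (K / θ) + 1) * (2 ^ r) ^ d) * 2 ^ r :=
          mul_le_mul_of_nonneg_right h1 hr.le
      _ = _ := by ring

/-- The lists of length less than `D`. -/
def LL (d : ℕ) : ℕ → Finset (List (Fin d))
  | 0 => ∅
  | D + 1 => insert [] (((univ : Finset (Fin d)) ×ˢ LL d D).image fun x => x.1 :: x.2)

theorem mem_LL {d : ℕ} : ∀ (D : ℕ) (L : List (Fin d)), L.length < D → L ∈ LL d D := by
  intro D
  induction D with
  | zero => intro L h; omega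
  | succ D ih =>
    intro L h
    unfold LL
    cases L with
    | nil => exact Finset.mem_insert_self _ _
    | cons i L =>
      refine Finset.mem_insert_of_mem (Finset.mem_image.2 ⟨(i, L), ?_, rfl⟩)
      rw [List.length_cons] at h
      exact Finset.mem_product.2 ⟨Finset.mem_univ _, ih L (by omega)⟩

theorem totalDegree_le_of_degreeOf {d K : ℕ} (f : MvPolynomial (Fin d) ℝ)
    (hf : ∀ i, f.degreeOf i ≤ K) : f.totalDegree ≤ d * K := by
  rw [totalDegree]
  refine Finset.sup_le fun s hs => ?_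
  rw [Finsupp.sum_fintype _ _ (fun _ => rfl)]
  calc ∑ i, s i ≤ ∑ _i : Fin d, K := Finset.sum_le_sum fun i _ =>
        (monomial_le_degreeOf i hs).trans (hf i)
    _ = d * K := by
      rw [Finset.sum_const, Finset.card_univ, Fintype.card_fin, smul_eq_mul]

/-- **Lemma RM, counting form.** -/
theorem rm1 (d K : ℕ) : ∃ C : ℝ, 1 ≤ C ∧ ∀ (r : ℕ) (f : MvPolynomial (Fin d) ℝ) (ε : ℝ)
    (m : Fin d →₀ ℕ), (∀ i, f.degreeOf i ≤ K) → 0 ≤ ε →
    ((K + 1) * 2 ^ ((r + 1) * K)) ^ d * (2 * ε) < |coeff m f| →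
    ∀ S : Finset (Fin d → Fin (2 ^ r)),
      (∀ k ∈ S, ∃ x : Fin d → ℝ, (∀ i, |x i - gp k i| ≤ 1 / 2 ^ r) ∧ |eval x f| ≤ ε) →
      (S.card : ℝ) * 2 ^ r ≤ C * (2 ^ r) ^ d := by
  classical
  obtain ⟨θ, hθ⟩ : ∃ θ : ℝ, θ = 1 / (4 * (d + 1)) := ⟨_, rfl⟩
  have hθ0 : 0 < θ := by rw [hθ]; positivity
  have hθ1 : d * θ ≤ 1 / 4 := by
    rw [hθ, mul_one_div, div_le_div_iff₀ (by positivity) (by positivity)]
    linarith
  obtain ⟨D, hD⟩ : ∃ D : ℕ, D = d * K := ⟨_, rfl⟩
  obtain ⟨B, hB⟩ : ∃ B : ℝ, B = D * (2 * (D / θ) + 1) := ⟨_, rfl⟩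
  have hB0 : 0 ≤ B := by rw [hB]; positivity
  refine ⟨1 + (LL d D).card * (d * B) + d * K, ?_, ?_⟩
  · have : (0 : ℝ) ≤ (LL d D).card * (d * B) := by positivity
    have : (0 : ℝ) ≤ (d : ℝ) * K := by positivity
    linarith
  intro r f ε m hf hε hm S hS
  have hr : (0 : ℝ) < 2 ^ r := by positivity
  have hfD : f.totalDegree ≤ D := by
    rw [hD]
    exact totalDegree_le_of_degreeOf f hf
  have h1 := grid_count K r d f (2 * ε) m hf (by positivity) hm
  obtain ⟨T, hT⟩ : ∃ T : Finset (Fin d → Fin (2 ^ r)),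
    T = univ.filter fun k : Fin d → Fin (2 ^ r) => |eval (gp k) f| ≤ 2 * ε := ⟨_, rfl⟩
  rw [← hT] at h1
  obtain ⟨Bd, hBd⟩ : ∃ Bd : List (Fin d) → Fin d → Finset (Fin d → Fin (2 ^ r)),
    Bd = fun L i => univ.filter fun k : Fin d → Fin (2 ^ r) =>
      θ * 2 ^ r * |eval (gp k) (pdl f L)| < |eval (gp k) (pderiv i (pdl f L))| := ⟨_, rfl⟩
  have h2 : ∀ L i, ((Bd L i).card : ℝ) * 2 ^ r ≤ B * (2 ^ r) ^ d := by
    intro L i
    rw [hBd, hB]
    exact card_bad hθ0 _ ((totalDegree_pdl f L).trans hfD) i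
  have h3 : S ⊆ ((LL d D).biUnion fun L => univ.biUnion fun i => Bd L i) ∪ T := by
    intro k hk
    obtain ⟨x, hx, hxe⟩ := hS k hk
    rw [Finset.mem_union]
    by_cases h4 : ∀ L : List (Fin d), L.length < D → ∀ i,
        |eval (gp k) (pderiv i (pdl f L))| ≤ θ * 2 ^ r * |eval (gp k) (pdl f L)|
    · right
      rw [hT, Finset.mem_filter]
      refine ⟨Finset.mem_univ _, ?_⟩
      have h5 := good_corner hr hθ0.le hθ1 hfD h4 x hx
      linarith
    · left
      push Not at h4
      obtain ⟨L, hL, i, hi⟩ := h4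
      rw [Finset.mem_biUnion]
      refine ⟨L, mem_LL D L hL, ?_⟩
      rw [Finset.mem_biUnion]
      refine ⟨i, Finset.mem_univ _, ?_⟩
      rw [hBd]
      exact Finset.mem_filter.2 ⟨Finset.mem_univ _, hi⟩
  have h4 : (S.card : ℝ) ≤ ∑ L ∈ LL d D, ∑ i : Fin d, ((Bd L i).card : ℝ) + T.card := by
    have h5 := (Finset.card_le_card h3).trans (Finset.card_union_le _ _)
    have h6 : ((LL d D).biUnion fun L => univ.biUnion fun i => Bd L i).card ≤
        ∑ L ∈ LL d D, ∑ i : Fin d, (Bd L i).card :=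
      Finset.card_biUnion_le.trans (Finset.sum_le_sum fun L _ => Finset.card_biUnion_le)
    exact_mod_cast h5.trans (Nat.add_le_add_right h6 _)
  calc (S.card : ℝ) * 2 ^ r ≤
        (∑ L ∈ LL d D, ∑ i : Fin d, ((Bd L i).card : ℝ) + T.card) * 2 ^ r :=
        mul_le_mul_of_nonneg_right h4 hr.le
    _ = (∑ L ∈ LL d D, ∑ i : Fin d, ((Bd L i).card : ℝ) * 2 ^ r) + T.card * 2 ^ r := by
        rw [add_mul, Finset.sum_mul]
        congr 1
        refine Finset.sum_congr rfl fun L _ => ?_
        rw [Finset.sum_mul]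
    _ ≤ (∑ L ∈ LL d D, ∑ i : Fin d, B * (2 ^ r) ^ d) + d * K * (2 ^ r) ^ d :=
        add_le_add (Finset.sum_le_sum fun L _ => Finset.sum_le_sum fun i _ => h2 L i) h1
    _ = ((LL d D).card * (d * B) + d * K) * (2 ^ r) ^ d := by
        rw [Finset.sum_const, Finset.sum_const, Finset.card_univ, Fintype.card_fin, nsmul_eq_mul,
          nsmul_eq_mul]
        ring
    _ ≤ (1 + (LL d D).card * (d * B) + d * K) * (2 ^ r) ^ d := by
        refine mul_le_mul_of_nonneg_right ?_ (by positivity)
        linarith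

end Pool.RM
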