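import Pool.Agent.H68.RM.Ent

/-!
# Lemma RM in a cell

`rm_cel`: the sides `2 ^ (-a i)` of the cell may be different and may depend on the context. The next
`L` digits of the point are full given the cell and the context, up to `δ L` digits. The polynomial is a
function of the context and is small at the point. Then it is at most `2 ^ (n K L)` times as large on
the whole box around the point, outside an event of probability `δ + C / L`.
-/

set_option autoImplicit false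

namespace Pool.RM

open Finset Real MvPolynomial
open Pool.Agent.H49.Ent Pool.Agent.H32.Dense Pool.STK Pool.BFL

/-- The polynomial in the coordinates of the cell with the sides `2 ^ (-a i)`. -/
noncomputable def rsl {n : ℕ} (a : Fin n → ℕ) (x : Fin n → ℤ) (P : Pl n) : Pl n :=
  MvPolynomial.aeval (fun i => MvPolynomial.C (1 / 2 ^ a i) * MvPolynomial.X i +
    MvPolynomial.C ((x i : ℝ) / 2 ^ a i)) P

theorem eval_rsl {n : ℕ} (a : Fin n → ℕ) (x : Fin n → ℤ) (P : Pl n) (z : Fin n → ℝ) :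
    MvPolynomial.eval z (rsl a x P) =
      MvPolynomial.eval (fun i => (z i + x i) / 2 ^ a i) P := by
  unfold rsl
  rw [MvPolynomial.aeval_def, MvPolynomial.eval₂_eq', map_sum, MvPolynomial.eval_eq']
  refine Finset.sum_congr rfl fun d _ => ?_
  rw [map_mul, map_prod, MvPolynomial.algebraMap_eq, MvPolynomial.eval_C]
  congr 1
  refine Finset.prod_congr rfl fun i _ => ?_
  rw [map_pow]
  congr 1
  rw [map_add, map_mul, MvPolynomial.eval_C, MvPolynomial.eval_C, MvPolynomial.eval_X]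
  ring

theorem deg_rsl {n : ℕ} (a : Fin n → ℕ) (x : Fin n → ℤ) (P : Pl n) :
    (rsl a x P).totalDegree ≤ P.totalDegree := by
  unfold rsl
  rw [MvPolynomial.aeval_def, MvPolynomial.eval₂_eq']
  refine MvPolynomial.totalDegree_finsetSum_le fun d hd => ?_
  refine (MvPolynomial.totalDegree_mul _ _).trans ?_
  have h0 : (algebraMap ℝ (MvPolynomial (Fin n) ℝ) (MvPolynomial.coeff d P)).totalDegree = 0 := by
    rw [MvPolynomial.algebraMap_eq, MvPolynomial.totalDegree_C]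
  rw [h0, zero_add]
  refine (MvPolynomial.totalDegree_finsetProd _ _).trans ?_
  have h1 : ∀ i ∈ (Finset.univ : Finset (Fin n)),
      ((MvPolynomial.C (1 / 2 ^ a i) * MvPolynomial.X i +
        MvPolynomial.C ((x i : ℝ) / 2 ^ a i) : MvPolynomial (Fin n) ℝ) ^ d i).totalDegree ≤
          d i := by
    intro i _
    refine (MvPolynomial.totalDegree_pow _ _).trans ?_
    have h2 : (MvPolynomial.C (1 / 2 ^ a i) * MvPolynomial.X i +
        MvPolynomial.C ((x i : ℝ) / 2 ^ a i) : MvPolynomial (Fin n) ℝ).totalDegree ≤ 1 := by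
      refine (MvPolynomial.totalDegree_add _ _).trans (max_le ?_ ?_)
      · refine (MvPolynomial.totalDegree_mul _ _).trans ?_
        rw [MvPolynomial.totalDegree_C, zero_add]
        exact (MvPolynomial.totalDegree_X _).le
      · rw [MvPolynomial.totalDegree_C]
        exact Nat.zero_le _
    calc d i * _ ≤ d i * 1 := Nat.mul_le_mul_left _ h2
      _ = d i := Nat.mul_one _
  refine (Finset.sum_le_sum h1).trans ?_
  have h3 : ∑ i, d i = d.sum fun _ e => e := by
    rw [Finsupp.sum_fintype _ _ fun _ => rfl]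
  rw [h3]
  exact MvPolynomial.le_totalDegree hd

theorem floor_div_pow (a L : ℕ) (v : ℝ) :
    ⌊(2 : ℝ) ^ a * v⌋ = ⌊(2 : ℝ) ^ (a + L) * v⌋ / 2 ^ L := by
  have h1 : (2 : ℝ) ^ a * v = (2 ^ (a + L) * v) / ((2 ^ L : ℕ) : ℝ) := by
    push_cast
    rw [pow_add]
    field_simp
  rw [h1, Int.floor_div_natCast]
  push_cast
  rfl

/-- **Lemma RM in a cell.** -/
theorem rm_cel (n K : ℕ) (R : ℝ) (hR : 1 ≤ R) : ∃ C : ℝ, 1 ≤ C ∧
    ∀ (Ω Γ : Type) [Fintype Ω] (p : Ω → ℝ) (L : ℕ) (a : Γ → Fin n → ℕ) (B : Ω → Fin n → ℝ)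
      (c : Ω → Γ) (D : Γ → Pl n) (Gd : Ω → Prop) (τ : Γ → ℝ) (δ : ℝ),
      IsLaw p → (∀ x, (D x).totalDegree ≤ K) → 1 ≤ L → (∀ x, 0 ≤ τ x) →
      (n - δ) * (L * Real.log 2) ≤
        CH p (fun ω i => ⌊(2 : ℝ) ^ (a (c ω) i + L) * B ω i⌋)
          (fun ω => ((fun i => ⌊(2 : ℝ) ^ a (c ω) i * B ω i⌋), c ω)) →
      (∀ ω, 0 < p ω → Gd ω → |MvPolynomial.eval (B ω) (D (c ω))| ≤ τ (c ω)) →
      Pb p (fun ω => Gd ω ∧ ¬ ∀ b : Fin n → ℝ, (∀ i, |b i - B ω i| ≤ R / 2 ^ a (c ω) i) →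
        |MvPolynomial.eval b (D (c ω))| ≤ C * 2 ^ (n * K * L) * τ (c ω)) ≤ δ + C / L := by
  obtain ⟨C, hC, hren⟩ := rm2 n K (R + 1) (by linarith)
  refine ⟨C, hC, ?_⟩
  intro Ω Γ _ p L a B c D Gd τ δ hp hD hL hτ hH hsm
  have h0 := hp.nonneg
  obtain ⟨ca, hca⟩ : ∃ ca : Ω → Fin n → ℤ, ca = fun ω i => ⌊(2 : ℝ) ^ a (c ω) i * B ω i⌋ :=
    ⟨_, rfl⟩
  obtain ⟨cb, hcb⟩ : ∃ cb : Ω → Fin n → ℤ, cb = fun ω i => ⌊(2 : ℝ) ^ (a (c ω) i + L) * B ω i⌋ :=
    ⟨_, rfl⟩
  have hca' : (fun ω => ((fun i => ⌊(2 : ℝ) ^ a (c ω) i * B ω i⌋), c ω)) =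
      fun ω => (ca ω, c ω) := by rw [hca]
  rw [hca', ← hcb] at hH
  obtain ⟨Y, hY⟩ : ∃ Y : Ω → Fin n → ℕ, Y = fun ω i => (cb ω i - 2 ^ L * ca ω i).toNat :=
    ⟨_, rfl⟩
  have hmod : ∀ ω i, cb ω i - 2 ^ L * ca ω i = cb ω i % 2 ^ L := by
    intro ω i
    have e : ca ω i = cb ω i / 2 ^ L := by
      rw [hca, hcb]
      exact floor_div_pow _ _ _
    rw [e]
    have := Int.emod_add_mul_ediv (cb ω i) (2 ^ L)
    linarith
  have hpos : (0 : ℤ) < 2 ^ L := by positivity
  have hY0 : ∀ ω i, (Y ω i : ℤ) = cb ω i - 2 ^ L * ca ω i := by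
    intro ω i
    rw [hY]
    simp only
    rw [Int.toNat_of_nonneg]
    rw [hmod]
    exact Int.emod_nonneg _ hpos.ne'
  have hY1 : ∀ ω i, Y ω i < 2 ^ L := by
    intro ω i
    have h1 : (Y ω i : ℤ) < 2 ^ L := by
      rw [hY0, hmod]
      exact Int.emod_lt_of_pos _ hpos
    exact_mod_cast h1
  have key := hren Ω ((Fin n → ℤ) × Γ) p L Y (fun ω => (ca ω, c ω))
    (fun x => rsl (a x.2) x.1 (D x.2)) Gd (fun x => τ x.2) δ hp hY1
    (fun x i => (degreeOf_le_totalDegree _ _).trans ((deg_rsl _ _ _).trans (hD _))) hL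
    (fun x => hτ _) ?_ ?_
  · refine le_trans (Pb_mono h0 fun ω hω => ⟨hω.1, fun hall => hω.2 fun b hb => ?_⟩) key
    have h1 := hall (fun i => 2 ^ a (c ω) i * b i - ca ω i) (fun i => by
      have e1 : (2 : ℝ) ^ a (c ω) i * b i - ca ω i =
          2 ^ a (c ω) i * (b i - B ω i) + (2 ^ a (c ω) i * B ω i - ca ω i) := by ring
      have h2 := Int.floor_le ((2 : ℝ) ^ a (c ω) i * B ω i)
      have h3 := Int.lt_floor_add_one ((2 : ℝ) ^ a (c ω) i * B ω i)
      have h4 : |(2 : ℝ) ^ a (c ω) i * B ω i - ca ω i| ≤ 1 := by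
        rw [hca]
        simp only
        rw [abs_le]
        constructor <;> linarith
      have h5 : |(2 : ℝ) ^ a (c ω) i * (b i - B ω i)| ≤ R := by
        rw [abs_mul, abs_of_pos (by positivity : (0 : ℝ) < 2 ^ a (c ω) i)]
        have h6 := mul_le_mul_of_nonneg_left (hb i) (by positivity : (0 : ℝ) ≤ 2 ^ a (c ω) i)
        have h7 : (2 : ℝ) ^ a (c ω) i * (R / 2 ^ a (c ω) i) = R := by field_simp
        rwa [h7] at h6
      rw [e1]
      exact (abs_add_le _ _).trans (add_le_add h5 h4))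
    rw [eval_rsl] at h1
    have h2 : (fun i => ((2 ^ a (c ω) i * b i - ca ω i) + ((ca ω i : ℤ) : ℝ)) /
        2 ^ a (c ω) i) = b := by
      funext i
      field_simp
      ring
    rw [h2] at h1
    exact h1
  · refine hH.trans (le_of_eq ?_)
    refine CH_congr h0 ?_ ?_ (fun _ _ _ _ h => h) (fun _ _ _ _ h => h)
    · intro ω ω' _ _ h
      simp only [Prod.mk.injEq] at h
      obtain ⟨h1, h2, -⟩ := h
      funext i
      have e1 := hY0 ω i
      have e2 := hY0 ω' i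
      rw [congrFun h1 i, congrFun h2 i] at e1
      have : (Y ω i : ℤ) = Y ω' i := by rw [e1, e2]
      exact_mod_cast this
    · intro ω ω' _ _ h
      simp only [Prod.mk.injEq] at h
      obtain ⟨h1, h2, -⟩ := h
      funext i
      have e1 := hY0 ω i
      have e2 := hY0 ω' i
      rw [congrFun h1 i, congrFun h2 i] at e1
      linarith
  · intro ω hω hg
    refine ⟨fun i => 2 ^ a (c ω) i * B ω i - ca ω i, fun i => ?_, ?_⟩
    · have h2 := Int.floor_le ((2 : ℝ) ^ (a (c ω) i + L) * B ω i)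
      have h3 := Int.lt_floor_add_one ((2 : ℝ) ^ (a (c ω) i + L) * B ω i)
      have h4 : ((Y ω i : ℕ) : ℝ) = (cb ω i : ℝ) - 2 ^ L * (ca ω i : ℝ) := by
        have := hY0 ω i
        have h5 : ((Y ω i : ℤ) : ℝ) = ((cb ω i - 2 ^ L * ca ω i : ℤ) : ℝ) := by rw [this]
        push_cast at h5
        exact h5
      have h6 : (2 : ℝ) ^ a (c ω) i * B ω i - ca ω i - (Y ω i : ℝ) / 2 ^ L =
          (2 ^ (a (c ω) i + L) * B ω i - cb ω i) / 2 ^ L := by
        rw [h4, pow_add]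
        field_simp
        ring
      rw [h6, abs_div, abs_of_pos (by positivity : (0 : ℝ) < 2 ^ L)]
      refine div_le_div_of_nonneg_right ?_ (by positivity)
      rw [hcb]
      simp only
      rw [abs_le]
      constructor <;> linarith
    · rw [eval_rsl]
      have h1 : (fun i => ((2 ^ a (c ω) i * B ω i - ca ω i) + ((ca ω i : ℤ) : ℝ)) /
          2 ^ a (c ω) i) = B ω := by
        funext i
        field_simp
        ring
      rw [h1]
      exact hsm ω hω hg

end Pool.RM
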