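import Pool.Agent.H68.RM.Grid

/-!
# Cubes which meet a sublevel set of a polynomial of bounded degree

`grid_count`: a polynomial with a large coefficient is small at few points of the grid.
`rm1`: it is small somewhere in few cubes of the grid.
-/

set_option autoImplicit false

namespace Pool.RM

open Finset Real MvPolynomial

/-! ### Counting along the lines of the grid -/

theorem card_line {d N : ℕ} (i : Fin (d + 1)) (P : (Fin (d + 1) → Fin N) → Prop) [DecidablePred P]
    (B : ℝ) (hB : ∀ b : Fin d → Fin N,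
      ((univ.filter fun t : Fin N => P (i.insertNth t b : Fin (d + 1) → Fin N)).card : ℝ) ≤ B) :
    ((univ.filter P).card : ℝ) ≤ B * (N : ℝ) ^ d := by
  classical
  have h1 := Finset.card_eq_sum_card_fiberwise (s := univ.filter P) (t := univ)
    (f := fun k : Fin (d + 1) → Fin N => (i.removeNth k : Fin d → Fin N))
    (fun k _ => Finset.mem_coe.2 (Finset.mem_univ _))
  rw [h1]
  push_cast
  have h2 : ∀ b : Fin d → Fin N,
      (((univ.filter P).filter fun k => (i.removeNth k : Fin d → Fin N) = b).card : ℝ) ≤ B := by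
    intro b
    refine le_trans ?_ (hB b)
    have h3 : ((univ.filter P).filter fun k => (i.removeNth k : Fin d → Fin N) = b).card ≤
        (univ.filter fun t : Fin N => P (i.insertNth t b : Fin (d + 1) → Fin N)).card := by
      refine Finset.card_le_card_of_injOn (fun k => k i) ?_ ?_
      · intro k hk
        have hk' := Finset.mem_filter.1 (Finset.mem_coe.1 hk)
        have hk2 := (Finset.mem_filter.1 hk'.1).2
        refine Finset.mem_coe.2 (Finset.mem_filter.2 ⟨Finset.mem_univ _, ?_⟩)
        rw [← hk'.2]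
        rw [show (i.insertNth (k i) (i.removeNth k) : Fin (d + 1) → Fin N) = k from
          Fin.insertNth_self_removeNth i k]
        exact hk2
      · intro k hk k' hk' hkk
        have e1 := (Finset.mem_filter.1 (Finset.mem_coe.1 hk)).2
        have e2 := (Finset.mem_filter.1 (Finset.mem_coe.1 hk')).2
        have e3 : k i = k' i := hkk
        rw [← Fin.insertNth_self_removeNth i k, ← Fin.insertNth_self_removeNth i k', e1, e2, e3]
    exact_mod_cast h3
  refine (Finset.sum_le_sum fun b _ => h2 b).trans ?_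
  rw [Finset.sum_const, Finset.card_univ, Fintype.card_fun, Fintype.card_fin, Fintype.card_fin,
    nsmul_eq_mul]
  push_cast
  rw [mul_comm]

/-- The points of the grid. -/
noncomputable def gp {r d : ℕ} (k : Fin d → Fin (2 ^ r)) : Fin d → ℝ :=
  fun i => ((k i : ℕ) : ℝ) / 2 ^ r

/-- A polynomial with a large coefficient is small at few points of the grid. -/
theorem grid_count (K r : ℕ) : ∀ (d : ℕ) (f : MvPolynomial (Fin d) ℝ) (ε : ℝ) (m : Fin d →₀ ℕ),
    (∀ i, f.degreeOf i ≤ K) → 0 ≤ ε →
    ((K + 1) * 2 ^ ((r + 1) * K)) ^ d * ε < |coeff m f| →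
    ((univ.filter fun k : Fin d → Fin (2 ^ r) => |eval (gp k) f| ≤ ε).card : ℝ) * 2 ^ r ≤
      d * K * (2 ^ r) ^ d := by
  classical
  intro d
  induction d with
  | zero =>
    intro f ε m _ _ hm
    have h1 : (univ.filter fun k : Fin 0 → Fin (2 ^ r) => |eval (gp k) f| ≤ ε) = ∅ := by
      rw [Finset.filter_eq_empty_iff]
      intro k _ hk
      obtain ⟨c, rfl⟩ : ∃ c : ℝ, f = C c := ⟨coeff 0 f, eq_C_of_isEmpty f⟩
      rw [eval_C] at hk
      have h2 : m = 0 := Subsingleton.elim _ _
      rw [h2, coeff_C, if_pos rfl, pow_zero, one_mul] at hm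
      linarith
    rw [h1]
    simp
  | succ d ih =>
    intro f ε m hf hε hm
    set A : ℝ := (K + 1) * 2 ^ ((r + 1) * K) with hA
    have hA0 : 0 < A := by positivity
    have hr : (0 : ℝ) < 2 ^ r := by positivity
    obtain ⟨F, hF⟩ : ∃ F : Polynomial (MvPolynomial (Fin d) ℝ), F = finSuccEquiv ℝ d f := ⟨_, rfl⟩
    obtain ⟨g, hg⟩ : ∃ g : MvPolynomial (Fin d) ℝ, g = F.coeff (m 0) := ⟨_, rfl⟩
    have hgd : ∀ i, g.degreeOf i ≤ K := by
      intro i
      rw [hg, hF]
      exact (degreeOf_coeff_finSuccEquiv f i _).trans (hf _)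
    have hgm : coeff m.tail g = coeff m f := by
      rw [hg, hF, finSuccEquiv_coeff_coeff, Finsupp.cons_tail]
    have h1 := ih g (A * ε) m.tail hgd (by positivity) (by
      rw [hgm]
      refine lt_of_eq_of_lt ?_ hm
      rw [pow_succ]
      ring)
    obtain ⟨S1, hS1⟩ : ∃ S1 : Finset (Fin d → Fin (2 ^ r)),
      S1 = univ.filter fun k : Fin d → Fin (2 ^ r) => |eval (gp k) g| ≤ A * ε := ⟨_, rfl⟩
    rw [← hS1] at h1
    have hgp : ∀ (t : Fin (2 ^ r)) (b : Fin d → Fin (2 ^ r)),
        gp ((0 : Fin (d + 1)).insertNth t b : Fin (d + 1) → Fin (2 ^ r)) =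
          Fin.cons (((t : ℕ) : ℝ) / 2 ^ r) (gp b) := by
      intro t b
      funext i
      rw [Fin.insertNth_zero']
      unfold gp
      refine Fin.cases ?_ (fun i => ?_) i
      · simp only [Fin.cons_zero]
      · simp only [Fin.cons_succ]
    have hev : ∀ (t : Fin (2 ^ r)) (b : Fin d → Fin (2 ^ r)),
        eval (gp ((0 : Fin (d + 1)).insertNth t b : Fin (d + 1) → Fin (2 ^ r))) f =
          (F.map (eval (gp b))).eval (((t : ℕ) : ℝ) / 2 ^ r) := by
      intro t b
      rw [hgp, eval_eq_eval_mv_eval', hF]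
    -- the lines with a large coefficient
    have h2 : ((univ.filter fun k : Fin (d + 1) → Fin (2 ^ r) =>
        |eval (gp k) f| ≤ ε ∧ ((0 : Fin (d + 1)).removeNth k : Fin d → Fin (2 ^ r)) ∉ S1).card : ℝ) ≤
          K * ((2 ^ r : ℕ) : ℝ) ^ d := by
      refine card_line 0 _ _ fun b => ?_
      by_cases hb : b ∈ S1
      · have h3 : (univ.filter fun t : Fin (2 ^ r) =>
            |eval (gp ((0 : Fin (d + 1)).insertNth t b : Fin (d + 1) → Fin (2 ^ r))) f| ≤ ε ∧
            ((0 : Fin (d + 1)).removeNth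
              ((0 : Fin (d + 1)).insertNth t b : Fin (d + 1) → Fin (2 ^ r)) :
                Fin d → Fin (2 ^ r)) ∉ S1) = ∅ := by
          rw [Finset.filter_eq_empty_iff]
          rintro t _ ⟨_, ht⟩
          rw [Fin.removeNth_insertNth] at ht
          exact ht hb
        rw [h3]
        simp
      · have h3 : A * ε < |(F.map (eval (gp b))).coeff (m 0)| := by
          rw [Polynomial.coeff_map, ← hg]
          by_contra h4
          apply hb
          rw [hS1, Finset.mem_filter]
          exact ⟨Finset.mem_univ _, not_lt.1 h4⟩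
        have h4 : (F.map (eval (gp b))).natDegree ≤ K := by
          refine Polynomial.natDegree_map_le.trans ?_
          rw [hF, natDegree_finSuccEquiv]
          exact hf 0
        have h5 := grid1 h4 h3
        have h6 : (univ.filter fun t : Fin (2 ^ r) =>
            |eval (gp ((0 : Fin (d + 1)).insertNth t b : Fin (d + 1) → Fin (2 ^ r))) f| ≤ ε ∧
            ((0 : Fin (d + 1)).removeNth
              ((0 : Fin (d + 1)).insertNth t b : Fin (d + 1) → Fin (2 ^ r)) :
                Fin d → Fin (2 ^ r)) ∉ S1).card ≤ K := by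
          refine le_trans (Finset.card_le_card ?_) h5
          intro t ht
          rw [Finset.mem_filter] at ht ⊢
          refine ⟨Finset.mem_univ _, ?_⟩
          rw [← hev]
          exact ht.2.1
        exact_mod_cast h6
    -- the lines over the exceptional set
    have h3 : ((univ.filter fun k : Fin (d + 1) → Fin (2 ^ r) =>
        ((0 : Fin (d + 1)).removeNth k : Fin d → Fin (2 ^ r)) ∈ S1).card : ℝ) ≤
          2 ^ r * S1.card := by
      have h4 : (univ.filter fun k : Fin (d + 1) → Fin (2 ^ r) =>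
        ((0 : Fin (d + 1)).removeNth k : Fin d → Fin (2 ^ r)) ∈ S1).card ≤
          ((univ : Finset (Fin (2 ^ r))) ×ˢ S1).card := by
        refine Finset.card_le_card_of_injOn
          (fun k => (k 0, ((0 : Fin (d + 1)).removeNth k : Fin d → Fin (2 ^ r)))) ?_ ?_
        · intro k hk
          refine Finset.mem_coe.2 (Finset.mem_product.2 ⟨Finset.mem_univ _, ?_⟩)
          exact (Finset.mem_filter.1 (Finset.mem_coe.1 hk)).2
        · intro k _ k' _ hkk
          have e1 : k 0 = k' 0 := (Prod.ext_iff.1 hkk).1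
          have e2 : ((0 : Fin (d + 1)).removeNth k : Fin d → Fin (2 ^ r)) =
            (0 : Fin (d + 1)).removeNth k' := (Prod.ext_iff.1 hkk).2
          rw [← Fin.insertNth_self_removeNth 0 k, ← Fin.insertNth_self_removeNth 0 k', e1, e2]
      rw [Finset.card_product, Finset.card_univ, Fintype.card_fin] at h4
      exact_mod_cast h4
    have h4 : (univ.filter fun k : Fin (d + 1) → Fin (2 ^ r) => |eval (gp k) f| ≤ ε) ⊆
        (univ.filter fun k : Fin (d + 1) → Fin (2 ^ r) =>
          |eval (gp k) f| ≤ ε ∧ ((0 : Fin (d + 1)).removeNth k : Fin d → Fin (2 ^ r)) ∉ S1) ∪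
        (univ.filter fun k : Fin (d + 1) → Fin (2 ^ r) =>
          ((0 : Fin (d + 1)).removeNth k : Fin d → Fin (2 ^ r)) ∈ S1) := by
      intro k hk
      rw [Finset.mem_union, Finset.mem_filter, Finset.mem_filter]
      by_cases h5 : ((0 : Fin (d + 1)).removeNth k : Fin d → Fin (2 ^ r)) ∈ S1
      · exact Or.inr ⟨Finset.mem_univ _, h5⟩
      · exact Or.inl ⟨Finset.mem_univ _, (Finset.mem_filter.1 hk).2, h5⟩
    have h5 := (Finset.card_le_card h4).trans (Finset.card_union_le _ _)
    have h6 : ((univ.filter fun k : Fin (d + 1) → Fin (2 ^ r) => |eval (gp k) f| ≤ ε).card : ℝ) ≤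
        K * ((2 ^ r : ℕ) : ℝ) ^ d + 2 ^ r * S1.card := by
      refine le_trans ?_ (add_le_add h2 h3)
      exact_mod_cast h5
    push_cast at h6 ⊢
    calc _ ≤ (K * (2 ^ r : ℝ) ^ d + 2 ^ r * S1.card) * 2 ^ r :=
          mul_le_mul_of_nonneg_right h6 hr.le
      _ = K * (2 ^ r : ℝ) ^ (d + 1) + 2 ^ r * (S1.card * 2 ^ r) := by ring
      _ ≤ K * (2 ^ r : ℝ) ^ (d + 1) + 2 ^ r * (d * K * (2 ^ r) ^ d) := by
          gcongr
      _ = _ := by ring

end Pool.RM
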