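import Pool.Agent.H68.RM.Dv
import Pool.Agent.H19.BFL.Stmts
import Pool.Agent.H21.UE.Dg

/-!
# Lemma RM (Remez at one scale), entropy form

`rm2`: `Y` are the first `r` digits of a point of the unit cube of dimension `d`, `c` is a context, the
polynomial `P c` is at most `S₀ c` at the point on the event `Gd`. If `H(Y | c) ≥ (d - δ) r log 2`,
then the event `Gd` and `sup |P c| > C 2 ^ (d K r) S₀ c` has probability at most `δ + C / r`.
`rm_cel`: the same in a cell with different sides.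
-/

set_option autoImplicit false

namespace Pool.RM

open Finset Real MvPolynomial
open Pool.Agent.H49.Ent Pool.Agent.H32.Dense Pool.STK Pool.BFL

theorem card_supp {n D : ℕ} (P : MvPolynomial (Fin n) ℝ) (h : ∀ i, P.degreeOf i ≤ D) :
    P.support ⊆ Finset.Iic (Finsupp.equivFunOnFinite.symm fun _ => D) := by
  intro α hα
  rw [Finset.mem_Iic]
  intro i
  exact (monomial_le_degreeOf i hα).trans (h i)

theorem eval_le {n D : ℕ} (P : MvPolynomial (Fin n) ℝ) (hP : ∀ i, P.degreeOf i ≤ D) (c ρ : ℝ)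
    (hρ : 1 ≤ ρ) (hc : ∀ α, |coeff α P| ≤ c) (y : Fin n → ℝ) (hy : ∀ i, |y i| ≤ ρ) :
    |eval y P| ≤ (Finset.Iic (Finsupp.equivFunOnFinite.symm fun _ : Fin n => D)).card *
      (c * ρ ^ (n * D)) := by
  have hc0 : 0 ≤ c := le_trans (abs_nonneg _) (hc 0)
  rw [eval_eq']
  have h1 : ∑ d ∈ P.support, coeff d P * ∏ i, y i ^ d i
      = ∑ d ∈ Finset.Iic (Finsupp.equivFunOnFinite.symm fun _ : Fin n => D),
        coeff d P * ∏ i, y i ^ d i := by
    refine Finset.sum_subset (card_supp P hP) fun d _ hd => ?_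
    rw [notMem_support_iff.1 hd, zero_mul]
  rw [h1]
  refine le_trans (Finset.abs_sum_le_sum_abs _ _) ?_
  rw [← nsmul_eq_mul]
  refine Finset.sum_le_card_nsmul _ _ _ fun d hd => ?_
  rw [abs_mul]
  refine mul_le_mul (hc d) ?_ (abs_nonneg _) hc0
  rw [Finset.abs_prod]
  have h2 : ∀ i ∈ (Finset.univ : Finset (Fin n)), |y i ^ d i| ≤ ρ ^ D := by
    intro i _
    rw [abs_pow]
    refine (pow_le_pow_left₀ (abs_nonneg _) (hy i) _).trans ?_
    exact pow_le_pow_right₀ hρ ((Finset.mem_Iic.1 hd) i)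
  refine le_trans (Finset.prod_le_prod (fun i _ => abs_nonneg _) h2) (le_of_eq ?_)
  rw [Finset.prod_const, Finset.card_univ, Fintype.card_fin, ← pow_mul, mul_comm]

/-- The loss of a bad context: the digits lie in few cubes. -/
theorem ent_core {Ω Γ : Type} [Fintype Ω] {p : Ω → ℝ} (hp : IsLaw p) {d r : ℕ}
    (Y : Ω → Fin d → Fin (2 ^ r)) (c : Ω → Γ) (Gd : Ω → Prop) (bad : Γ → Prop) {C : ℝ}
    (hC : 1 ≤ C) (S : Γ → Finset (Fin d → Fin (2 ^ r)))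
    (hS : ∀ x, bad x → ((S x).card : ℝ) * 2 ^ r ≤ C * (2 ^ r) ^ d)
    (hY : ∀ ω, 0 < p ω → Gd ω → bad (c ω) → Y ω ∈ S (c ω)) :
    CH p Y c ≤ Real.log 2 + d * (r * Real.log 2) -
      Pb p (fun ω => Gd ω ∧ bad (c ω)) * (r * Real.log 2 - Real.log C) := by
  classical
  have h0 := hp.nonneg
  have hr : (0 : ℝ) < 2 ^ r := by positivity
  -- add the event to the context
  have h1 : CH p Y c ≤ Real.log 2 + CH p Y (fun ω => (Gd ω, c ω)) := by
    have h2 := CH_chain h0 Y Gd c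
    have h3 : CH p Y c ≤ CH p (fun ω => (Y ω, Gd ω)) c :=
      CH_mono_left h0 fun ω ω' _ _ h => (Prod.ext_iff.1 (Prod.ext_iff.1 h).1).1
    have h4 := Pool.UE.CH_prop_le hp Gd c
    linarith
  have h2 := CH_le_card h0 hp.sum_one Y (fun ω => (Gd ω, c ω))
    (fun z => if z.1 ∧ bad z.2 then S z.2 else univ) (by
      intro ω hω
      simp only
      split_ifs with h
      · exact hY ω hω h.1 h.2
      · exact Finset.mem_univ _)
  have hun : Real.log (((univ : Finset (Fin d → Fin (2 ^ r))).card : ℕ) : ℝ) =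
      d * (r * Real.log 2) := by
    rw [Finset.card_univ, Fintype.card_fun, Fintype.card_fin, Fintype.card_fin]
    push_cast
    rw [Real.log_pow, Real.log_pow]
  have h3 : Ex p (fun ω => Real.log (((if Gd ω ∧ bad (c ω) then S (c ω) else univ :
      Finset (Fin d → Fin (2 ^ r))).card : ℕ) : ℝ)) ≤ d * (r * Real.log 2) -
        Pb p (fun ω => Gd ω ∧ bad (c ω)) * (r * Real.log 2 - Real.log C) := by
    unfold Ex Pb
    have e1 : (d : ℝ) * (r * Real.log 2) = ∑ ω, p ω * (d * (r * Real.log 2)) := by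
      rw [← Finset.sum_mul, hp.sum_one, one_mul]
    rw [e1, Finset.sum_mul, ← Finset.sum_sub_distrib]
    refine Finset.sum_le_sum fun ω _ => ?_
    rcases (h0 ω).eq_or_lt with h | h
    · rw [← h]
      split_ifs <;> simp
    by_cases hb : Gd ω ∧ bad (c ω)
    · simp only
      rw [if_pos hb, if_pos hb, ← mul_sub]
      refine mul_le_mul_of_nonneg_left ?_ h.le
      have hm := hY ω h hb.1 hb.2
      have hpos : (0 : ℝ) < (S (c ω)).card := Nat.cast_pos.2 (Finset.card_pos.2 ⟨_, hm⟩)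
      have h4 := Real.log_le_log (mul_pos hpos hr) (hS (c ω) hb.2)
      rw [Real.log_mul hpos.ne' hr.ne', Real.log_mul (by positivity) (by positivity),
        Real.log_pow, Real.log_pow, Real.log_pow] at h4
      linarith
    · simp only
      rw [if_neg hb, if_neg hb, zero_mul, sub_zero, hun]
  have h4 : CH p Y (fun ω => (Gd ω, c ω)) ≤ d * (r * Real.log 2) -
        Pb p (fun ω => Gd ω ∧ bad (c ω)) * (r * Real.log 2 - Real.log C) := h2.trans h3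
  linarith

theorem Pb_le_one {Ω : Type} [Fintype Ω] {p : Ω → ℝ} (hp : IsLaw p) (A : Ω → Prop) :
    Pb p A ≤ 1 := by
  classical
  unfold Pb
  rw [← hp.sum_one]
  refine Finset.sum_le_sum fun ω _ => ?_
  split_ifs
  · exact le_rfl
  · exact hp.nonneg ω

theorem Pb_mono {Ω : Type} [Fintype Ω] {p : Ω → ℝ} (hp : ∀ ω, 0 ≤ p ω) {A B : Ω → Prop}
    (h : ∀ ω, A ω → B ω) : Pb p A ≤ Pb p B := by
  classical
  unfold Pb
  refine Finset.sum_le_sum fun ω _ => ?_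
  by_cases hA : A ω
  · rw [if_pos hA, if_pos (h ω hA)]
  · rw [if_neg hA]
    split_ifs
    · exact hp ω
    · exact le_rfl

/-- **Lemma RM, entropy form**: coefficients. -/
theorem rm2c (d K : ℕ) : ∃ C : ℝ, 1 ≤ C ∧
    ∀ (Ω Γ : Type) [Fintype Ω] (p : Ω → ℝ) (r : ℕ) (Y : Ω → Fin d → ℕ) (c : Ω → Γ)
      (P : Γ → Pl d) (Gd : Ω → Prop) (S₀ : Γ → ℝ) (δ : ℝ),
      IsLaw p → (∀ ω i, Y ω i < 2 ^ r) → (∀ x i, (P x).degreeOf i ≤ K) → 1 ≤ r →
      (∀ x, 0 ≤ S₀ x) → (d - δ) * (r * Real.log 2) ≤ CH p Y c →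
      (∀ ω, 0 < p ω → Gd ω → ∃ y : Fin d → ℝ, (∀ i, |y i - (Y ω i : ℝ) / 2 ^ r| ≤ 1 / 2 ^ r) ∧
        |eval y (P (c ω))| ≤ S₀ (c ω)) →
      Pb p (fun ω => Gd ω ∧ ¬ ∀ α, |coeff α (P (c ω))| ≤ C * 2 ^ (d * K * r) * S₀ (c ω)) ≤
        δ + C / r := by
  classical
  obtain ⟨C₁, hC₁, hrm⟩ := rm1 d K
  have hl2 : (0 : ℝ) < Real.log 2 := Real.log_pos (by norm_num)
  obtain ⟨A, hA⟩ : ∃ A : ℝ, A = ((K + 1) * 2 ^ K) ^ d * 2 := ⟨_, rfl⟩
  have hA1 : 1 ≤ A := by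
    rw [hA]
    have h1 : (1 : ℝ) ≤ (K + 1) * 2 ^ K := by
      have h2 : (1 : ℝ) ≤ 2 ^ K := one_le_pow₀ (by norm_num)
      have h3 : (0 : ℝ) ≤ K := by positivity
      nlinarith
    have h2 := one_le_pow₀ h1 (n := d)
    linarith
  refine ⟨A + (1 + Real.log C₁ / Real.log 2), ?_, ?_⟩
  · have h1 := Real.log_nonneg hC₁
    have h2 : 0 ≤ Real.log C₁ / Real.log 2 := by positivity
    linarith
  intro Ω Γ _ p r Y c P Gd S₀ δ hp hY hP hr hS₀ hH hval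
  have h0 := hp.nonneg
  have hlC := Real.log_nonneg hC₁
  have hq : 0 ≤ Real.log C₁ / Real.log 2 := by positivity
  have hr' : (1 : ℝ) ≤ r := by exact_mod_cast hr
  have hr2 : (0 : ℝ) < 2 ^ r := by positivity
  obtain ⟨Y', hY'⟩ : ∃ Y' : Ω → Fin d → Fin (2 ^ r), Y' = fun ω i => ⟨Y ω i, hY ω i⟩ := ⟨_, rfl⟩
  obtain ⟨bad, hbad⟩ : ∃ bad : Γ → Prop, bad = fun x => ∃ α,
    A * 2 ^ (d * K * r) * S₀ x < |coeff α (P x)| := ⟨_, rfl⟩
  obtain ⟨S, hS⟩ : ∃ S : Γ → Finset (Fin d → Fin (2 ^ r)), S = fun x => univ.filter fun k =>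
    ∃ y : Fin d → ℝ, (∀ i, |y i - gp k i| ≤ 1 / 2 ^ r) ∧ |eval y (P x)| ≤ S₀ x := ⟨_, rfl⟩
  have hpow : ∀ x, ((K + 1) * 2 ^ ((r + 1) * K) : ℝ) ^ d * (2 * S₀ x) =
      A * 2 ^ (d * K * r) * S₀ x := by
    intro x
    have e1 : ((K + 1) * 2 ^ ((r + 1) * K) : ℝ) ^ d = ((K + 1) * 2 ^ K) ^ d * 2 ^ (d * K * r) := by
      have e2 : ((K + 1) * 2 ^ ((r + 1) * K) : ℝ) = ((K + 1) * 2 ^ K) * 2 ^ (r * K) := by
        rw [show (r + 1) * K = r * K + K by ring, pow_add]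
        ring
      rw [e2, mul_pow, ← pow_mul (2 : ℝ) (r * K) d]
      congr 2
      ring
    rw [e1, hA]
    ring
  have hSc : ∀ x, bad x → ((S x).card : ℝ) * 2 ^ r ≤ C₁ * (2 ^ r) ^ d := by
    intro x hx
    rw [hbad] at hx
    obtain ⟨α, hα⟩ := hx
    refine hrm r (P x) (S₀ x) α (hP x) (hS₀ x) ?_ (S x) ?_
    · rw [hpow]
      exact hα
    · intro k hk
      rw [hS] at hk
      exact (Finset.mem_filter.1 hk).2
  have hYS : ∀ ω, 0 < p ω → Gd ω → bad (c ω) → Y' ω ∈ S (c ω) := by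
    intro ω hω hg _
    rw [hS]
    refine Finset.mem_filter.2 ⟨Finset.mem_univ _, ?_⟩
    obtain ⟨y, hy, hye⟩ := hval ω hω hg
    refine ⟨y, fun i => ?_, hye⟩
    unfold gp
    rw [hY']
    exact hy i
  have key := ent_core hp Y' c Gd bad hC₁ S hSc hYS
  have hYY : CH p Y c ≤ CH p Y' c := by
    refine CH_mono_left h0 fun ω ω' _ _ h => ?_
    have h1 : Y' ω = Y' ω' := (Prod.ext_iff.1 h).1
    funext i
    have h2 := congrArg Fin.val (congrFun h1 i)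
    rw [hY'] at h2
    exact h2
  have hle : Pb p (fun ω => Gd ω ∧ ¬ ∀ α, |coeff α (P (c ω))| ≤
      (A + (1 + Real.log C₁ / Real.log 2)) * 2 ^ (d * K * r) * S₀ (c ω)) ≤
      Pb p (fun ω => Gd ω ∧ bad (c ω)) := by
    refine Pb_mono h0 fun ω h => ⟨h.1, ?_⟩
    obtain ⟨hg, h⟩ := h
    push Not at h
    obtain ⟨α, hα⟩ := h
    rw [hbad]
    refine ⟨α, lt_of_le_of_lt ?_ hα⟩
    refine mul_le_mul_of_nonneg_right ?_ (hS₀ _)
    refine mul_le_mul_of_nonneg_right ?_ (by positivity)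
    linarith
  refine hle.trans ?_
  obtain ⟨b, hb⟩ : ∃ b : ℝ, b = Pb p (fun ω => Gd ω ∧ bad (c ω)) := ⟨_, rfl⟩
  have hb1 : b ≤ 1 := by rw [hb]; exact Pb_le_one hp _
  rw [← hb] at key ⊢
  have h1 : b * (r * Real.log 2) ≤ δ * (r * Real.log 2) + Real.log 2 + Real.log C₁ := by
    have h2 : b * Real.log C₁ ≤ Real.log C₁ := by nlinarith
    nlinarith
  have h2 : b * (r * Real.log 2) ≤ (δ + (1 + Real.log C₁ / Real.log 2) / r) * (r * Real.log 2) := by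
    refine h1.trans (le_of_eq ?_)
    field_simp
    ring
  have h3 : b ≤ δ + (1 + Real.log C₁ / Real.log 2) / r :=
    le_of_mul_le_mul_right h2 (by positivity)
  refine h3.trans ?_
  have h4 : (1 + Real.log C₁ / Real.log 2) / r ≤ (A + (1 + Real.log C₁ / Real.log 2)) / r :=
    div_le_div_of_nonneg_right (by linarith) (by positivity)
  linarith

/-- **Lemma RM, entropy form**: the supremum over a cube. -/
theorem rm2 (d K : ℕ) (R : ℝ) (hR : 1 ≤ R) : ∃ C : ℝ, 1 ≤ C ∧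
    ∀ (Ω Γ : Type) [Fintype Ω] (p : Ω → ℝ) (r : ℕ) (Y : Ω → Fin d → ℕ) (c : Ω → Γ)
      (P : Γ → Pl d) (Gd : Ω → Prop) (S₀ : Γ → ℝ) (δ : ℝ),
      IsLaw p → (∀ ω i, Y ω i < 2 ^ r) → (∀ x i, (P x).degreeOf i ≤ K) → 1 ≤ r →
      (∀ x, 0 ≤ S₀ x) → (d - δ) * (r * Real.log 2) ≤ CH p Y c →
      (∀ ω, 0 < p ω → Gd ω → ∃ y : Fin d → ℝ, (∀ i, |y i - (Y ω i : ℝ) / 2 ^ r| ≤ 1 / 2 ^ r) ∧
        |eval y (P (c ω))| ≤ S₀ (c ω)) →
      Pb p (fun ω => Gd ω ∧ ¬ ∀ y : Fin d → ℝ, (∀ i, |y i| ≤ R) →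
        |eval y (P (c ω))| ≤ C * 2 ^ (d * K * r) * S₀ (c ω)) ≤ δ + C / r := by
  classical
  obtain ⟨C₁, hC₁, hrm⟩ := rm2c d K
  obtain ⟨B, hB⟩ : ∃ B : ℝ,
    B = (Finset.Iic (Finsupp.equivFunOnFinite.symm fun _ : Fin d => K)).card * R ^ (d * K) :=
    ⟨_, rfl⟩
  have hB0 : 0 ≤ B := by rw [hB]; positivity
  refine ⟨C₁ * (1 + B), ?_, ?_⟩
  · nlinarith
  intro Ω Γ _ p r Y c P Gd S₀ δ hp hY hP hr hS₀ hH hval
  have h1 := hrm Ω Γ p r Y c P Gd S₀ δ hp hY hP hr hS₀ hH hval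
  have hr' : (1 : ℝ) ≤ r := by exact_mod_cast hr
  have h2 : C₁ / r ≤ C₁ * (1 + B) / r := by
    refine div_le_div_of_nonneg_right ?_ (by positivity)
    nlinarith
  refine le_trans ?_ (h1.trans (add_le_add le_rfl h2))
  refine Pb_mono hp.nonneg fun ω h => ⟨h.1, fun hco => h.2 fun y hy => ?_⟩
  have h3 := eval_le (P (c ω)) (hP _) _ R hR hco y hy
  refine h3.trans ?_
  have h4 : 0 ≤ C₁ * 2 ^ (d * K * r) * S₀ (c ω) := by
    have := hS₀ (c ω)
    positivity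
  calc _ = B * (C₁ * 2 ^ (d * K * r) * S₀ (c ω)) := by rw [hB]; ring
    _ ≤ (1 + B) * (C₁ * 2 ^ (d * K * r) * S₀ (c ω)) := by nlinarith
    _ = _ := by ring

end Pool.RM
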