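import Pool.Agent.H48.M5.Lag

/-!
# Polynomials of bounded degree at the points of a dyadic grid

`grid1`: a polynomial in one variable with a large coefficient is small at few points of the grid.
`card_der`: the derivative is large compared with the polynomial at few points of the grid.
-/

set_option autoImplicit false

namespace Pool.RM

open Finset Real

theorem grid1 {K r : ℕ} {p : Polynomial ℝ} (hp : p.natDegree ≤ K) {ε : ℝ} {a : ℕ}
    (h : (K + 1) * 2 ^ ((r + 1) * K) * ε < |p.coeff a|) :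
    (univ.filter fun k : Fin (2 ^ r) => |p.eval (((k : ℕ) : ℝ) / 2 ^ r)| ≤ ε).card ≤ K := by
  classical
  by_contra hc
  push Not at hc
  obtain ⟨S, hS, hcard⟩ := Finset.exists_subset_card_eq (Nat.succ_le_of_lt hc)
  have hr : (0 : ℝ) < 2 ^ r := by positivity
  obtain ⟨θ, hθ⟩ : ∃ θ : Fin (K + 1) → ℝ, θ = fun j =>
    ((((S.orderIsoOfFin hcard j : S) : Fin (2 ^ r)) : ℕ) : ℝ) / 2 ^ r := ⟨_, rfl⟩
  have h1 : ∀ j, |θ j| ≤ 1 := by
    intro j
    rw [hθ]
    simp only
    rw [abs_of_nonneg (by positivity), div_le_one hr]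
    have := ((S.orderIsoOfFin hcard j : S) : Fin (2 ^ r)).2
    exact_mod_cast this.le
  have hs : ∀ j j', j ≠ j' → (2 : ℝ) ^ (-(r : ℤ)) ≤ |θ j - θ j'| := by
    intro j j' hne
    rw [hθ]
    simp only
    rw [← sub_div, abs_div, abs_of_pos hr, zpow_neg, zpow_natCast, ← one_div]
    refine div_le_div_of_nonneg_right ?_ hr.le
    have h2 : ((S.orderIsoOfFin hcard j : S) : Fin (2 ^ r)) ≠
        ((S.orderIsoOfFin hcard j' : S) : Fin (2 ^ r)) := by
      intro h3
      exact hne ((S.orderIsoOfFin hcard).injective (Subtype.ext h3))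
    have h3 : ((((S.orderIsoOfFin hcard j : S) : Fin (2 ^ r)) : ℕ) : ℤ) ≠
        ((((S.orderIsoOfFin hcard j' : S) : Fin (2 ^ r)) : ℕ) : ℤ) := by
      intro h4
      exact h2 (Fin.ext (by exact_mod_cast h4))
    have h4 := Int.one_le_abs (sub_ne_zero.2 h3)
    have h5 : ((1 : ℤ) : ℝ) ≤ ((|((((S.orderIsoOfFin hcard j : S) : Fin (2 ^ r)) : ℕ) : ℤ) -
        ((((S.orderIsoOfFin hcard j' : S) : Fin (2 ^ r)) : ℕ) : ℤ)| : ℤ) : ℝ) := by
      exact_mod_cast h4
    push_cast at h5
    exact h5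
  have hf : ∀ j, |p.eval (θ j)| ≤ ε := by
    intro j
    have h2 := (Finset.mem_filter.1 (hS (S.orderIsoOfFin hcard j).2)).2
    rw [hθ]
    exact h2
  have h2 := Pool.M5.L48.lag_le θ (fun j => p.eval (θ j)) h1 hs hf a
  rw [Pool.M5.L48.lag_poly (Pool.M5.L48.sep_injective hs) p hp a] at h2
  linarith

theorem card_near {N : ℕ} (x R : ℝ) (hR : 0 ≤ R) :
    ((univ.filter fun k : Fin N => |((k : ℕ) : ℝ) - x| ≤ R).card : ℝ) ≤ 2 * R + 1 := by
  classical
  have h1 : (univ.filter fun k : Fin N => |((k : ℕ) : ℝ) - x| ≤ R).card ≤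
      (Finset.Icc ⌈x - R⌉ ⌊x + R⌋).card := by
    refine Finset.card_le_card_of_injOn (fun k => ((k : ℕ) : ℤ)) ?_ ?_
    · intro k hk
      have h2 := (Finset.mem_filter.1 (Finset.mem_coe.1 hk)).2
      rw [abs_le] at h2
      simp only [Finset.coe_Icc, Set.mem_Icc]
      constructor
      · rw [Int.ceil_le]
        push_cast
        linarith [h2.1]
      · rw [Int.le_floor]
        push_cast
        linarith [h2.2]
    · intro k _ k' _ hkk
      have h2 : ((k : ℕ) : ℤ) = ((k' : ℕ) : ℤ) := hkk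
      exact Fin.ext (by exact_mod_cast h2)
  rw [Int.card_Icc] at h1
  have h2 : (((⌊x + R⌋ + 1 - ⌈x - R⌉).toNat : ℕ) : ℝ) ≤ 2 * R + 1 := by
    by_cases h3 : 0 ≤ ⌊x + R⌋ + 1 - ⌈x - R⌉
    · have h4 : (((⌊x + R⌋ + 1 - ⌈x - R⌉).toNat : ℕ) : ℝ) =
          ((⌊x + R⌋ + 1 - ⌈x - R⌉ : ℤ) : ℝ) := by
        rw [← Int.cast_natCast, Int.toNat_of_nonneg h3]
      rw [h4]
      push_cast
      have h5 := Int.floor_le (x + R)
      have h6 := Int.le_ceil (x - R)
      linarith
    · rw [Int.toNat_of_nonpos (by omega)]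
      push_cast
      linarith
  refine le_trans ?_ h2
  exact_mod_cast h1

theorem card_der {K r : ℕ} {q : Polynomial ℝ} (hq : q.natDegree ≤ K) {θ : ℝ} (hθ : 0 < θ) :
    ((univ.filter fun k : Fin (2 ^ r) => θ * 2 ^ r * |q.eval (((k : ℕ) : ℝ) / 2 ^ r)| <
      |(Polynomial.derivative q).eval (((k : ℕ) : ℝ) / 2 ^ r)|).card : ℝ) ≤
      K * (2 * (K / θ) + 1) := by
  classical
  have hr : (0 : ℝ) < 2 ^ r := by positivity
  obtain ⟨Q, hQ⟩ : ∃ Q : Polynomial ℂ, Q = q.map (algebraMap ℝ ℂ) := ⟨_, rfl⟩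
  have hQd : Q.natDegree ≤ K := by
    rw [hQ]
    exact (Polynomial.natDegree_map_le).trans hq
  have hrc : Q.roots.card ≤ K := (Polynomial.card_roots' Q).trans hQd
  have hQe : ∀ y : ℝ, Q.eval (y : ℂ) = ((q.eval y : ℝ) : ℂ) := by
    intro y
    rw [hQ, Polynomial.eval_map]
    exact Polynomial.eval₂_at_apply (algebraMap ℝ ℂ) y
  have hQe' : ∀ y : ℝ, (Polynomial.derivative Q).eval (y : ℂ) =
      (((Polynomial.derivative q).eval y : ℝ) : ℂ) := by
    intro y
    rw [hQ, Polynomial.derivative_map, Polynomial.eval_map]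
    exact Polynomial.eval₂_at_apply (algebraMap ℝ ℂ) y
  have hsub : (univ.filter fun k : Fin (2 ^ r) => θ * 2 ^ r * |q.eval (((k : ℕ) : ℝ) / 2 ^ r)| <
      |(Polynomial.derivative q).eval (((k : ℕ) : ℝ) / 2 ^ r)|) ⊆
      Q.roots.toFinset.biUnion fun z => univ.filter fun k : Fin (2 ^ r) =>
        |((k : ℕ) : ℝ) - 2 ^ r * z.re| ≤ K / θ := by
    intro k hk
    have hb := (Finset.mem_filter.1 hk).2
    obtain ⟨y, hy⟩ : ∃ y : ℝ, y = ((k : ℕ) : ℝ) / 2 ^ r := ⟨_, rfl⟩
    rw [← hy] at hb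
    have hky : ((k : ℕ) : ℝ) = 2 ^ r * y := by
      rw [hy]
      field_simp
    have hQ0 : Q ≠ 0 := by
      intro h0
      have h1 := hQe' y
      rw [h0, Polynomial.derivative_zero, Polynomial.eval_zero] at h1
      have h2 : (Polynomial.derivative q).eval y = 0 := by exact_mod_cast h1.symm
      rw [h2, abs_zero] at hb
      exact absurd hb (not_lt.2 (by positivity))
    rw [Finset.mem_biUnion]
    by_cases h0 : q.eval y = 0
    · refine ⟨(y : ℂ), ?_, ?_⟩
      · rw [Multiset.mem_toFinset, Polynomial.mem_roots hQ0, Polynomial.IsRoot, hQe, h0]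
        simp
      · rw [Finset.mem_filter]
        refine ⟨Finset.mem_univ _, ?_⟩
        rw [hky, Complex.ofReal_re, sub_self, abs_zero]
        positivity
    · have hne : Q.eval (y : ℂ) ≠ 0 := by
        rw [hQe]
        exact_mod_cast h0
      have h1 := (IsAlgClosed.splits Q).eval_derivative_eq_eval_mul_sum hne
      rw [hQe, hQe'] at h1
      have h2 : |(Polynomial.derivative q).eval y| ≤ |q.eval y| *
          (Q.roots.map fun z => ‖1 / ((y : ℂ) - z)‖).sum := by
        have h3 := congrArg norm h1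
        rw [Complex.norm_real, norm_mul, Complex.norm_real, Real.norm_eq_abs, Real.norm_eq_abs] at h3
        rw [h3]
        refine mul_le_mul_of_nonneg_left ?_ (abs_nonneg _)
        have h4 := norm_multiset_sum_le (Q.roots.map fun z => 1 / ((y : ℂ) - z))
        rw [Multiset.map_map] at h4
        exact h4
      have hpos : 0 < |q.eval y| := abs_pos.2 h0
      have h3 : θ * 2 ^ r < (Q.roots.map fun z => ‖1 / ((y : ℂ) - z)‖).sum := by
        have h4 := lt_of_lt_of_le hb h2
        rw [mul_comm (|q.eval y|)] at h4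
        exact lt_of_mul_lt_mul_right h4 hpos.le
      by_contra hcon
      push Not at hcon
      have h4 : ∀ z ∈ Q.roots, ‖1 / ((y : ℂ) - z)‖ ≤ θ * 2 ^ r / K := by
        intro z hz
        have h5 := hcon z (Multiset.mem_toFinset.2 hz)
        rw [Finset.mem_filter] at h5
        have h6 : K / θ < |((k : ℕ) : ℝ) - 2 ^ r * z.re| := by
          by_contra h7
          exact h5 ⟨Finset.mem_univ _, not_lt.1 h7⟩
        have hK : 0 < K := by
          have : 0 < Q.roots.card := Multiset.card_pos_iff_exists_mem.2 ⟨z, hz⟩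
          omega
        have hK' : (0 : ℝ) < K := by exact_mod_cast hK
        have h7 : |((k : ℕ) : ℝ) - 2 ^ r * z.re| ≤ 2 ^ r * ‖(y : ℂ) - z‖ := by
          rw [hky, ← mul_sub, abs_mul, abs_of_pos hr]
          refine mul_le_mul_of_nonneg_left ?_ hr.le
          have := Complex.abs_re_le_norm ((y : ℂ) - z)
          simpa using this
        have h8 : K / θ < 2 ^ r * ‖(y : ℂ) - z‖ := lt_of_lt_of_le h6 h7
        have h9 : 0 < ‖(y : ℂ) - z‖ := by
          have : 0 < 2 ^ r * ‖(y : ℂ) - z‖ := lt_of_le_of_lt (by positivity) h8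
          exact pos_of_mul_pos_right this hr.le
        rw [norm_div, norm_one, div_le_div_iff₀ h9 hK', one_mul]
        rw [div_lt_iff₀ hθ] at h8
        linarith
      have h5 : (Q.roots.map fun z => ‖1 / ((y : ℂ) - z)‖).sum ≤ Q.roots.card • (θ * 2 ^ r / K) := by
        have h6 := Multiset.sum_le_card_nsmul (Q.roots.map fun z => ‖1 / ((y : ℂ) - z)‖)
          (θ * 2 ^ r / K) (by
            intro x hx
            obtain ⟨z, hz, rfl⟩ := Multiset.mem_map.1 hx
            exact h4 z hz)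
        rwa [Multiset.card_map] at h6
      have h6 : Q.roots.card • (θ * 2 ^ r / K) ≤ θ * 2 ^ r := by
        rw [nsmul_eq_mul]
        by_cases hK : K = 0
        · have : Q.roots.card = 0 := by omega
          rw [this]
          push_cast
          rw [zero_mul]
          positivity
        · have hK' : (0 : ℝ) < K := by exact_mod_cast Nat.pos_of_ne_zero hK
          calc (Q.roots.card : ℝ) * (θ * 2 ^ r / K) ≤ K * (θ * 2 ^ r / K) :=
                mul_le_mul_of_nonneg_right (by exact_mod_cast hrc) (by positivity)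
            _ = θ * 2 ^ r := by field_simp
      linarith
  have hcard := Finset.card_le_card hsub
  have h1 := hcard.trans Finset.card_biUnion_le
  have h2 : ((∑ z ∈ Q.roots.toFinset, (univ.filter fun k : Fin (2 ^ r) =>
        |((k : ℕ) : ℝ) - 2 ^ r * z.re| ≤ K / θ).card : ℕ) : ℝ) ≤
      ∑ _z ∈ Q.roots.toFinset, (2 * (K / θ) + 1) := by
    push_cast
    exact Finset.sum_le_sum fun z _ => card_near _ _ (by positivity)
  have h3 : (∑ _z ∈ Q.roots.toFinset, (2 * (K / θ) + 1) : ℝ) ≤ K * (2 * (K / θ) + 1) := by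
    rw [Finset.sum_const, nsmul_eq_mul]
    refine mul_le_mul_of_nonneg_right ?_ (by positivity)
    exact_mod_cast (Multiset.toFinset_card_le _).trans hrc
  refine le_trans ?_ (h2.trans h3)
  exact_mod_cast h1

end Pool.RM
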