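import Pool.Agent.H68.RM.Nod

/-!
# Interpolation at typical nodes in several variables

`lbn d K v j`: the polynomials of the nodes `v`. If `1 ≤ Λ |det|`, then their coefficients are at most
`C Λ`, and every polynomial `g` of degree at most `K` is the sum of `g (v j) * lbn d K v j`.
-/

set_option autoImplicit false

namespace Pool.RM

open Finset Real MvPolynomial
open Pool.Agent.H49.Ent Pool.Agent.H32.Dense Pool.STK Pool.BFL

/-- The matrix of the monomials at the nodes. -/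
noncomputable def vm (d K : ℕ) (v : Fin (nn d K) → Fin d → ℝ) :
    Matrix (Fin (nn d K)) (Fin (nn d K)) ℝ := Matrix.of fun i l => mo (exf d K l) (v i)

theorem DD_eq {d K : ℕ} (v : Fin (nn d K) → Fin d → ℝ) : DD (exf d K) v = (vm d K v).det := rfl

/-- **The polynomials of the nodes.** -/
noncomputable def lbn (d K : ℕ) (v : Fin (nn d K) → Fin d → ℝ) (j : Fin (nn d K)) : Pl d :=
  ∑ l : Fin (nn d K), monomial (exf d K l) ((vm d K v)⁻¹ l j)

theorem mo_le {d K : ℕ} {R : ℝ} (hR : 1 ≤ R) {α : Fin d →₀ ℕ} (hα : α ∈ ex d K) {x : Fin d → ℝ}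
    (hx : ∀ i, |x i| ≤ R) : |mo α x| ≤ R ^ K := by
  unfold mo
  rw [Finset.abs_prod]
  have h1 : ∏ i, |x i ^ α i| ≤ ∏ i, R ^ α i := by
    refine Finset.prod_le_prod (fun i _ => abs_nonneg _) fun i _ => ?_
    rw [abs_pow]
    exact pow_le_pow_left₀ (abs_nonneg _) (hx i) _
  refine h1.trans ?_
  rw [Finset.prod_pow_eq_pow_sum]
  refine pow_le_pow_right₀ hR ?_
  rw [← Finsupp.degree_eq_sum]
  exact mem_ex.1 hα

theorem coeff_lbn (d K : ℕ) (v : Fin (nn d K) → Fin d → ℝ) (j l : Fin (nn d K)) :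
    coeff (exf d K l) (lbn d K v j) = (vm d K v)⁻¹ l j := by
  classical
  unfold lbn
  rw [coeff_sum, Finset.sum_eq_single l]
  · rw [coeff_monomial, if_pos rfl]
  · intro l' _ hl'
    rw [coeff_monomial, if_neg]
    intro e
    exact hl' (Fin.ext (exf_inj l'.2 l.2 e))
  · intro h
    exact absurd (Finset.mem_univ _) h

theorem coeff_lbn_zero {d K : ℕ} (v : Fin (nn d K) → Fin d → ℝ) (j : Fin (nn d K))
    {α : Fin d →₀ ℕ} (hα : α ∉ ex d K) : coeff α (lbn d K v j) = 0 := by
  classical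
  unfold lbn
  rw [coeff_sum]
  refine Finset.sum_eq_zero fun l _ => ?_
  rw [coeff_monomial, if_neg]
  intro e
  exact hα (e ▸ exf_mem l)

theorem supp_lbn (d K : ℕ) (v : Fin (nn d K) → Fin d → ℝ) (j : Fin (nn d K)) :
    (lbn d K v j).support ⊆ ex d K := by
  intro α hα
  by_contra h
  exact mem_support_iff.1 hα (coeff_lbn_zero v j h)

theorem deg_lbn (d K : ℕ) (v : Fin (nn d K) → Fin d → ℝ) (j : Fin (nn d K)) :
    (lbn d K v j).totalDegree ≤ K := by
  rw [totalDegree]
  refine Finset.sup_le fun α hα => ?_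
  have h1 := mem_ex.1 (supp_lbn d K v j hα)
  rwa [Finsupp.degree_apply] at h1

/-- The coefficients of the polynomials of the nodes. -/
theorem lbn_coeff {d K : ℕ} {R Λ : ℝ} (hR : 1 ≤ R) {v : Fin (nn d K) → Fin d → ℝ}
    (hv : ∀ j i, |v j i| ≤ R) (hΛ : 1 ≤ Λ * |(vm d K v).det|) (j : Fin (nn d K))
    (α : Fin d →₀ ℕ) :
    |coeff α (lbn d K v j)| ≤ (nn d K).factorial * (R ^ K) ^ nn d K * Λ := by
  classical
  have hdet : 0 < |(vm d K v).det| := by
    rcases (abs_nonneg (vm d K v).det).eq_or_lt with h | h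
    · rw [← h, mul_zero] at hΛ
      linarith
    · exact h
  have hΛ0 : 0 ≤ Λ := by
    by_contra h
    push Not at h
    have := mul_neg_of_neg_of_pos h hdet
    linarith
  by_cases hα : α ∈ ex d K
  · obtain ⟨l, hl, rfl⟩ := exf_surj hα
    have e : coeff (exf d K l) (lbn d K v j) = (vm d K v)⁻¹ ⟨l, hl⟩ j :=
      coeff_lbn d K v j ⟨l, hl⟩
    rw [e, Matrix.inv_def, Matrix.smul_apply, smul_eq_mul, abs_mul, Ring.inverse_eq_inv', abs_inv,
      Matrix.adjugate_apply]
    have hR1 : (1 : ℝ) ≤ R ^ K := one_le_pow₀ hR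
    have h1 := Matrix.det_le (abv := AbsoluteValue.abs) (x := R ^ K)
      (A := (vm d K v).updateRow j (Pi.single ⟨l, hl⟩ 1)) (by
        intro i i'
        rw [AbsoluteValue.abs_apply]
        by_cases hi : i = j
        · subst hi
          rw [Matrix.updateRow_self]
          by_cases hi' : i' = ⟨l, hl⟩
          · rw [hi', Pi.single_eq_same, abs_one]
            exact hR1
          · rw [Pi.single_eq_of_ne hi', abs_zero]
            linarith
        · rw [Matrix.updateRow_ne hi]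
          exact mo_le hR (exf_mem _) (hv i))
    rw [AbsoluteValue.abs_apply, Fintype.card_fin, nsmul_eq_mul] at h1
    have h2 : |(vm d K v).det|⁻¹ ≤ Λ := by
      rw [inv_le_iff_one_le_mul₀ hdet]
      exact hΛ
    calc _ ≤ Λ * ((nn d K).factorial * (R ^ K) ^ nn d K) :=
          mul_le_mul h2 h1 (abs_nonneg _) hΛ0
      _ = _ := by ring
  · rw [coeff_lbn_zero v j hα, abs_zero]
    positivity

/-- **Interpolation.** -/
theorem lbn_interp {d K : ℕ} {v : Fin (nn d K) → Fin d → ℝ} (hv : (vm d K v).det ≠ 0)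
    {g : Pl d} (hg : g.totalDegree ≤ K) :
    g = ∑ j, C (eval (v j) g) * lbn d K v j := by
  classical
  obtain ⟨s, hs⟩ : ∃ s : Fin (nn d K) → ℝ, s = fun l : Fin (nn d K) =>
    coeff (exf d K l) g := ⟨_, rfl⟩
  have hsupp : ∀ α, α ∉ ex d K → coeff α g = 0 := by
    intro α hα
    by_contra h
    apply hα
    rw [mem_ex, Finsupp.degree_apply]
    exact (le_totalDegree (mem_support_iff.2 h)).trans hg
  -- the polynomial as a combination of the monomials
  have h1 : g = ∑ l : Fin (nn d K), monomial (exf d K l) (s l) := by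
    ext α
    rw [coeff_sum]
    by_cases hα : α ∈ ex d K
    · obtain ⟨l, hl, rfl⟩ := exf_surj hα
      rw [Finset.sum_eq_single ⟨l, hl⟩]
      · rw [coeff_monomial, if_pos rfl, hs]
      · intro l' _ hl'
        rw [coeff_monomial, if_neg]
        intro e
        exact hl' (Fin.ext (exf_inj l'.2 hl e))
      · intro h
        exact absurd (Finset.mem_univ _) h
    · rw [hsupp α hα]
      symm
      refine Finset.sum_eq_zero fun l _ => ?_
      rw [coeff_monomial, if_neg]
      intro e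
      exact hα (e ▸ exf_mem l)
  -- the values
  have h2 : (vm d K v).mulVec s = fun j => eval (v j) g := by
    funext j
    have h3 : eval (v j) g = ∑ l : Fin (nn d K), s l * mo (exf d K l) (v j) := by
      conv_lhs => rw [h1]
      rw [map_sum]
      exact Finset.sum_congr rfl fun l _ => eval_mono _ _ _
    rw [h3]
    show ∑ l, vm d K v j l * s l = _
    refine Finset.sum_congr rfl fun l _ => ?_
    rw [mul_comm]
    rfl
  have h3 : s = ((vm d K v)⁻¹).mulVec fun j => eval (v j) g := by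
    rw [← h2, Matrix.mulVec_mulVec, Matrix.nonsing_inv_mul _ (isUnit_iff_ne_zero.2 hv),
      Matrix.one_mulVec]
  conv_lhs => rw [h1, h3]
  have h4 : ∀ l : Fin (nn d K), monomial (exf d K l)
      (((vm d K v)⁻¹).mulVec (fun j => eval (v j) g) l) =
      ∑ j, C (eval (v j) g) * monomial (exf d K l) ((vm d K v)⁻¹ l j) := by
    intro l
    have h5 : ((vm d K v)⁻¹).mulVec (fun j => eval (v j) g) l =
        ∑ j, (vm d K v)⁻¹ l j * eval (v j) g := rfl
    rw [h5, map_sum]
    refine Finset.sum_congr rfl fun j _ => ?_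
    rw [C_mul_monomial, mul_comm]
  rw [Finset.sum_congr rfl fun l _ => h4 l, Finset.sum_comm]
  refine Finset.sum_congr rfl fun j _ => ?_
  unfold lbn
  rw [Finset.mul_sum]

/-- The values of the polynomials of the nodes. -/
theorem lbn_eval {d K : ℕ} {R Λ : ℝ} (hR : 1 ≤ R) {v : Fin (nn d K) → Fin d → ℝ}
    (hv : ∀ j i, |v j i| ≤ R) (hΛ : 1 ≤ Λ * |(vm d K v).det|) (j : Fin (nn d K))
    {R' : ℝ} (hR' : 1 ≤ R') {x : Fin d → ℝ} (hx : ∀ i, |x i| ≤ R') :
    |eval x (lbn d K v j)| ≤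
      nn d K * ((nn d K).factorial * (R ^ K) ^ nn d K * Λ * R' ^ K) := by
  classical
  have h1 : eval x (lbn d K v j) = ∑ l : Fin (nn d K), (vm d K v)⁻¹ l j * mo (exf d K l) x := by
    unfold lbn
    rw [map_sum]
    exact Finset.sum_congr rfl fun l _ => eval_mono _ _ _
  rw [h1]
  refine (Finset.abs_sum_le_sum_abs _ _).trans ?_
  have h2 : ∀ l ∈ (Finset.univ : Finset (Fin (nn d K))), |(vm d K v)⁻¹ l j * mo (exf d K l) x| ≤
      (nn d K).factorial * (R ^ K) ^ nn d K * Λ * R' ^ K := by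
    intro l _
    rw [abs_mul]
    have h3 := lbn_coeff hR hv hΛ j (exf d K l)
    rw [coeff_lbn] at h3
    exact mul_le_mul h3 (mo_le hR' (exf_mem _) hx) (abs_nonneg _) ((abs_nonneg _).trans h3)
  refine (Finset.sum_le_sum h2).trans (le_of_eq ?_)
  rw [Finset.sum_const, Finset.card_univ, Fintype.card_fin, nsmul_eq_mul]

/-- **Interpolation with errors.** -/
theorem interp (d K : ℕ) (R R' : ℝ) (hR : 1 ≤ R) (hR' : 1 ≤ R') : ∃ C : ℝ, 1 ≤ C ∧
    ∀ (v : Fin (nn d K) → Fin d → ℝ) (Λ : ℝ), (∀ j i, |v j i| ≤ R) →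
      1 ≤ Λ * |DD (exf d K) v| →
      (∀ j α, |coeff α (lbn d K v j)| ≤ C * Λ) ∧
      (∀ (x : Fin d → ℝ), (∀ i, |x i| ≤ R') → ∀ j, |eval x (lbn d K v j)| ≤ C * Λ) ∧
      ∀ (g : Pl d), g.totalDegree ≤ K → g = ∑ j, MvPolynomial.C (eval (v j) g) * lbn d K v j ∧
        ∀ (a : Fin (nn d K) → ℝ) (τ : ℝ), (∀ j, |eval (v j) g - a j| ≤ τ) →
          ∀ (x : Fin d → ℝ), (∀ i, |x i| ≤ R') →
            |eval x g - ∑ j, a j * eval x (lbn d K v j)| ≤ C * Λ * τ := by
  obtain ⟨B, hB⟩ : ∃ B : ℝ, B = (nn d K).factorial * (R ^ K) ^ nn d K := ⟨_, rfl⟩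
  have hB1 : 1 ≤ B := by
    rw [hB]
    have h1 : (1 : ℝ) ≤ (nn d K).factorial := by
      exact_mod_cast Nat.one_le_iff_ne_zero.2 (Nat.factorial_ne_zero _)
    have h2 : (1 : ℝ) ≤ (R ^ K) ^ nn d K := one_le_pow₀ (one_le_pow₀ hR)
    nlinarith
  have hRK : (1 : ℝ) ≤ R' ^ K := one_le_pow₀ hR'
  obtain ⟨N, hN⟩ : ∃ N : ℝ, N = nn d K := ⟨_, rfl⟩
  have hN0 : 0 ≤ N := by rw [hN]; positivity
  have hBR : 1 ≤ B * R' ^ K := by nlinarith
  refine ⟨(1 + N) ^ 2 * (B * R' ^ K), ?_, ?_⟩
  · nlinarith [sq_nonneg N]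
  intro v Λ hv hΛ
  rw [DD_eq] at hΛ
  have hdet : (vm d K v).det ≠ 0 := by
    intro h
    rw [h, abs_zero, mul_zero] at hΛ
    linarith
  have hΛ0 : 0 ≤ Λ := by
    by_contra h
    push Not at h
    have := mul_neg_of_neg_of_pos h (abs_pos.2 hdet)
    linarith
  have hX : 0 ≤ B * R' ^ K * Λ := by positivity
  have hev : ∀ (x : Fin d → ℝ), (∀ i, |x i| ≤ R') → ∀ j, |eval x (lbn d K v j)| ≤
      N * (B * R' ^ K * Λ) := by
    intro x hx j
    have h1 := lbn_eval hR hv hΛ j hR' hx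
    rw [← hB, ← hN] at h1
    calc _ ≤ _ := h1
      _ = _ := by ring
  refine ⟨fun j α => ?_, fun x hx j => ?_, fun g hg => ⟨lbn_interp hdet hg, ?_⟩⟩
  · have h1 := lbn_coeff hR hv hΛ j α
    rw [← hB] at h1
    refine h1.trans ?_
    have h2 : B * Λ ≤ B * R' ^ K * Λ := by
      refine mul_le_mul_of_nonneg_right ?_ hΛ0
      nlinarith
    calc B * Λ ≤ 1 * (B * R' ^ K * Λ) := by rw [one_mul]; exact h2
      _ ≤ (1 + N) ^ 2 * (B * R' ^ K * Λ) := by
          refine mul_le_mul_of_nonneg_right ?_ hX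
          nlinarith
      _ = _ := by ring
  · refine (hev x hx j).trans ?_
    calc N * (B * R' ^ K * Λ) ≤ (1 + N) ^ 2 * (B * R' ^ K * Λ) := by
          refine mul_le_mul_of_nonneg_right ?_ hX
          nlinarith
      _ = _ := by ring
  · intro a τ ha x hx
    have h1 : eval x g = ∑ j, eval (v j) g * eval x (lbn d K v j) := by
      conv_lhs => rw [lbn_interp hdet hg]
      rw [map_sum]
      refine Finset.sum_congr rfl fun j _ => ?_
      rw [map_mul, eval_C]
    rw [h1, ← Finset.sum_sub_distrib]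
    refine (Finset.abs_sum_le_sum_abs _ _).trans ?_
    have h2 : ∀ j ∈ (Finset.univ : Finset (Fin (nn d K))),
        |eval (v j) g * eval x (lbn d K v j) - a j * eval x (lbn d K v j)| ≤
          τ * (N * (B * R' ^ K * Λ)) := by
      intro j _
      rw [← sub_mul, abs_mul]
      exact mul_le_mul (ha j) (hev x hx j) (abs_nonneg _) ((abs_nonneg _).trans (ha j))
    refine (Finset.sum_le_sum h2).trans ?_
    rw [Finset.sum_const, Finset.card_univ, Fintype.card_fin, nsmul_eq_mul, ← hN]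
    by_cases hn : nn d K = 0
    · have hN' : N = 0 := by rw [hN, hn]; simp
      rw [hN', zero_mul]
      -- there are no monomials: impossible
      exfalso
      have h3 : (0 : Fin d →₀ ℕ) ∈ ex d K := by
        rw [mem_ex, map_zero]
        exact Nat.zero_le _
      have h4 : 0 < nn d K := Finset.card_pos.2 ⟨0, h3⟩
      omega
    · have j0 : Fin (nn d K) := ⟨0, Nat.pos_of_ne_zero hn⟩
      have hτ : 0 ≤ τ := (abs_nonneg _).trans (ha j0)
      calc N * (τ * (N * (B * R' ^ K * Λ))) = N ^ 2 * (B * R' ^ K * Λ * τ) := by ring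
        _ ≤ (1 + N) ^ 2 * (B * R' ^ K * Λ * τ) := by
            refine mul_le_mul_of_nonneg_right ?_ (mul_nonneg hX hτ)
            nlinarith
        _ = _ := by ring

end Pool.RM
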