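import Pool.Agent.H68.RM.Ent

/-!
# Typical interpolation nodes in several variables

`nodes`: if the digits of every node are full given the context and the earlier nodes, then the
determinant of the monomials of degree at most `K` at the nodes is at least `2 ^ (-C r)`, typically.
`interp`: then the polynomials of degree at most `K` are combinations of their values at the nodes.
-/

set_option autoImplicit false

namespace Pool.RM

open Finset Real MvPolynomial
open Pool.Agent.H49.Ent Pool.Agent.H32.Dense Pool.STK Pool.BFL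

/-! ### The exponents -/

/-- The exponents of degree at most `K`. -/
noncomputable def ex (d K : ℕ) : Finset (Fin d →₀ ℕ) :=
  (Finset.Iic (Finsupp.equivFunOnFinite.symm fun _ : Fin d => K)).filter fun α => α.degree ≤ K

theorem mem_ex {d K : ℕ} {α : Fin d →₀ ℕ} : α ∈ ex d K ↔ α.degree ≤ K := by
  unfold ex
  rw [Finset.mem_filter, Finset.mem_Iic]
  exact ⟨fun h => h.2, fun h => ⟨fun i => (Finsupp.le_degree i α).trans h, h⟩⟩

/-- The number of the monomials. -/
noncomputable def nn (d K : ℕ) : ℕ := (ex d K).card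

/-- The exponents as a sequence. -/
noncomputable def exf (d K : ℕ) (l : ℕ) : Fin d →₀ ℕ :=
  if h : l < nn d K then ((ex d K).equivFin.symm ⟨l, h⟩ : Fin d →₀ ℕ) else 0

theorem exf_mem {d K : ℕ} (l : ℕ) : exf d K l ∈ ex d K := by
  unfold exf
  split_ifs with h
  · exact ((ex d K).equivFin.symm ⟨l, h⟩).2
  · rw [mem_ex, map_zero]
    exact Nat.zero_le _

theorem exf_inj {d K l l' : ℕ} (h : l < nn d K) (h' : l' < nn d K)
    (e : exf d K l = exf d K l') : l = l' := by
  unfold exf at e
  rw [dif_pos h, dif_pos h'] at e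
  have h1 := (ex d K).equivFin.symm.injective (Subtype.ext e)
  exact congrArg Fin.val h1

theorem exf_surj {d K : ℕ} {α : Fin d →₀ ℕ} (h : α ∈ ex d K) : ∃ l < nn d K, exf d K l = α := by
  obtain ⟨x, hx⟩ : ∃ x : Fin (ex d K).card, x = (ex d K).equivFin ⟨α, h⟩ := ⟨_, rfl⟩
  have hl : (x : ℕ) < nn d K := x.2
  refine ⟨x, hl, ?_⟩
  unfold exf
  rw [dif_pos hl]
  have e : (ex d K).equivFin.symm x = ⟨α, h⟩ := by rw [hx, Equiv.symm_apply_apply]
  exact congrArg Subtype.val e

/-- The monomial. -/
noncomputable def mo {d : ℕ} (α : Fin d →₀ ℕ) (x : Fin d → ℝ) : ℝ := ∏ i, x i ^ α i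

theorem eval_mono {d : ℕ} (α : Fin d →₀ ℕ) (c : ℝ) (x : Fin d → ℝ) :
    eval x (monomial α c) = c * mo α x := by
  rw [eval_monomial]
  congr 1
  unfold mo
  rw [Finsupp.prod_fintype _ _ (fun _ => pow_zero _)]

/-! ### The minors -/

/-- The minor of the first monomials at the points. -/
noncomputable def DD {d j : ℕ} (α : ℕ → Fin d →₀ ℕ) (u : Fin j → Fin d → ℝ) : ℝ :=
  (Matrix.of fun (i l : Fin j) => mo (α l) (u i)).det

/-- The next minor as a polynomial in the next point. -/
noncomputable def pol {d j : ℕ} (α : ℕ → Fin d →₀ ℕ) (u : Fin j → Fin d → ℝ) : Pl d :=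
  ∑ l : Fin (j + 1), monomial (α l) ((-1) ^ (j + (l : ℕ)) *
    (Matrix.of fun (i l' : Fin j) => mo (α (l.succAbove l')) (u i)).det)

theorem DD_succ {d : ℕ} (α : ℕ → Fin d →₀ ℕ) (θ : ℕ → Fin d → ℝ) (j : ℕ) :
    DD α (fun i : Fin (j + 1) => θ i) = eval (θ j) (pol α (fun i : Fin j => θ i)) := by
  unfold DD pol
  rw [Matrix.det_succ_row _ (Fin.last j), map_sum]
  refine Finset.sum_congr rfl fun l _ => ?_
  rw [eval_mono, Matrix.of_apply]
  simp only [Fin.val_last]
  rw [mul_right_comm]
  congr 2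
  congr 1
  ext i l'
  rw [Matrix.submatrix_apply, Matrix.of_apply, Matrix.of_apply, Fin.succAbove_last,
    Fin.val_castSucc]

theorem coeff_pol {d j : ℕ} {α : ℕ → Fin d →₀ ℕ} (hα : ∀ l < j, α l ≠ α j)
    (u : Fin j → Fin d → ℝ) : coeff (α j) (pol α u) = DD α u := by
  classical
  unfold pol DD
  rw [coeff_sum, Finset.sum_eq_single (Fin.last j)]
  · rw [coeff_monomial, Fin.val_last, if_pos rfl]
    have h1 : ((-1 : ℝ)) ^ (j + j) = 1 := Even.neg_one_pow ⟨j, rfl⟩
    rw [h1, one_mul]
    congr 1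
    ext i l'
    rw [Matrix.of_apply, Matrix.of_apply, Fin.succAbove_last, Fin.val_castSucc]
  · intro l _ hl
    have h1 : (l : ℕ) < j := by
      have h2 := l.2
      have h3 : (l : ℕ) ≠ j := fun h => hl (Fin.ext h)
      omega
    rw [coeff_monomial, if_neg (hα l h1)]
  · intro h
    exact absurd (Finset.mem_univ _) h

theorem degreeOf_pol {d j K : ℕ} {α : ℕ → Fin d →₀ ℕ} (hα : ∀ l, α l ∈ ex d K)
    (u : Fin j → Fin d → ℝ) (i : Fin d) : (pol α u).degreeOf i ≤ K := by
  classical
  rw [degreeOf_le_iff]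
  intro m hm
  rw [mem_support_iff] at hm
  unfold pol at hm
  rw [coeff_sum] at hm
  obtain ⟨l, _, hl⟩ := Finset.exists_ne_zero_of_sum_ne_zero hm
  rw [coeff_monomial] at hl
  have h1 : α l = m := by
    by_contra h
    exact hl (if_neg h)
  rw [← h1]
  exact (Finsupp.le_degree i _).trans (mem_ex.1 (hα l))

/-! ### Typical nodes -/

/-- **Typical nodes.** -/
theorem nodes (d K : ℕ) : ∃ C : ℝ, 1 ≤ C ∧
    ∀ (Ω Γ : Type) [Fintype Ω] (p : Ω → ℝ) (r : ℕ) (Y : ℕ → Ω → Fin d → ℕ) (c : Ω → Γ)
      (θ : ℕ → Ω → Fin d → ℝ) (δ : ℝ), IsLaw p → 1 ≤ r →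
      (∀ j < nn d K, ∀ ω i, Y j ω i < 2 ^ r) →
      (∀ j < nn d K, ∀ ω i, |θ j ω i - (Y j ω i : ℝ) / 2 ^ r| ≤ 1 / 2 ^ r) →
      (∀ j < nn d K, (d - δ) * (r * Real.log 2) ≤
        CH p (Y j) (fun ω => (c ω, fun i : Fin j => θ i ω))) →
      Pb p (fun ω => ¬ 1 ≤ C * 2 ^ (nn d K * (d * K * r)) *
        |DD (exf d K) (fun i : Fin (nn d K) => θ i ω)|) ≤ nn d K * (δ + C / r) := by
  classical
  obtain ⟨C, hC, hrm⟩ := rm2c d K
  have hC0 : 0 < C := by linarith
  refine ⟨(2 * C) ^ (nn d K) + C, ?_, ?_⟩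
  · have : (1 : ℝ) ≤ (2 * C) ^ (nn d K) := one_le_pow₀ (by linarith)
    linarith
  intro Ω Γ _ p r Y c θ δ hp hr hY hθ hH
  have h0 := hp.nonneg
  obtain ⟨κ, hκ⟩ : ∃ κ : ℝ, κ = 2 * C * 2 ^ (d * K * r) := ⟨_, rfl⟩
  have hκ0 : 0 < κ := by rw [hκ]; positivity
  have key : ∀ j, j ≤ nn d K →
      Pb p (fun ω => ¬ 1 ≤ κ ^ j * |DD (exf d K) (fun i : Fin j => θ i ω)|) ≤
        j * (δ + C / r) := by
    intro j
    induction j with
    | zero =>
      intro _
      have h1 : ∀ ω, ¬ ¬ 1 ≤ κ ^ 0 * |DD (exf d K) (fun i : Fin 0 => θ i ω)| := by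
        intro ω h
        apply h
        unfold DD
        rw [Matrix.det_fin_zero, pow_zero, one_mul, abs_one]
      have h2 : Pb p (fun ω => ¬ 1 ≤ κ ^ 0 * |DD (exf d K) (fun i : Fin 0 => θ i ω)|) = 0 := by
        unfold Pb
        exact Finset.sum_eq_zero fun ω _ => if_neg (h1 ω)
      rw [h2]
      simp
    | succ j ih =>
      intro hj
      have hj' : j < nn d K := hj
      have h1 := ih (by omega)
      have h2 := hrm Ω (Γ × (Fin j → Fin d → ℝ)) p r (Y j)
        (fun ω => (c ω, fun i : Fin j => θ i ω)) (fun x => pol (exf d K) x.2)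
        (fun ω => |DD (exf d K) (fun i : Fin (j + 1) => θ i ω)| ≤
          |DD (exf d K) (fun i : Fin j => θ i ω)| / κ ∧
          DD (exf d K) (fun i : Fin j => θ i ω) ≠ 0)
        (fun x => |DD (exf d K) x.2| / κ) δ hp (hY j hj')
        (fun x i => degreeOf_pol (fun l => exf_mem l) x.2 i) hr
        (fun x => by positivity) (hH j hj') (by
          intro ω _ hg
          refine ⟨θ j ω, hθ j hj' ω, ?_⟩
          have h3 := hg.1
          rw [DD_succ (exf d K) (fun i => θ i ω) j] at h3
          exact h3)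
      have h3 : Pb p (fun ω => ¬ 1 ≤ κ ^ (j + 1) *
          |DD (exf d K) (fun i : Fin (j + 1) => θ i ω)|) ≤
          Pb p (fun ω => ¬ 1 ≤ κ ^ j * |DD (exf d K) (fun i : Fin j => θ i ω)|) +
          Pb p (fun ω => (|DD (exf d K) (fun i : Fin (j + 1) => θ i ω)| ≤
            |DD (exf d K) (fun i : Fin j => θ i ω)| / κ ∧
            DD (exf d K) (fun i : Fin j => θ i ω) ≠ 0) ∧
            ¬ ∀ α, |coeff α (pol (exf d K) (fun i : Fin j => θ i ω))| ≤
              C * 2 ^ (d * K * r) * (|DD (exf d K) (fun i : Fin j => θ i ω)| / κ)) := by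
        unfold Pb
        rw [← Finset.sum_add_distrib]
        refine Finset.sum_le_sum fun ω _ => ?_
        by_cases hb : 1 ≤ κ ^ (j + 1) * |DD (exf d K) (fun i : Fin (j + 1) => θ i ω)|
        · rw [if_neg (not_not.2 hb)]
          have := h0 ω
          split_ifs <;> simp [this]
        · rw [if_pos hb]
          by_cases hb1 : 1 ≤ κ ^ j * |DD (exf d K) (fun i : Fin j => θ i ω)|
          · have hne : DD (exf d K) (fun i : Fin j => θ i ω) ≠ 0 := by
              intro h4
              rw [h4, abs_zero, mul_zero] at hb1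
              linarith
            have hpos : 0 < |DD (exf d K) (fun i : Fin j => θ i ω)| := abs_pos.2 hne
            have hsm : |DD (exf d K) (fun i : Fin (j + 1) => θ i ω)| ≤
                |DD (exf d K) (fun i : Fin j => θ i ω)| / κ := by
              rw [le_div_iff₀ hκ0]
              by_contra h4
              push Not at h4
              apply hb
              calc (1 : ℝ) ≤ κ ^ j * |DD (exf d K) (fun i : Fin j => θ i ω)| := hb1
                _ ≤ κ ^ j * (|DD (exf d K) (fun i : Fin (j + 1) => θ i ω)| * κ) :=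
                    mul_le_mul_of_nonneg_left h4.le (by positivity)
                _ = κ ^ (j + 1) * |DD (exf d K) (fun i : Fin (j + 1) => θ i ω)| := by
                    rw [pow_succ]; ring
            have hco : ¬ ∀ α, |coeff α (pol (exf d K) (fun i : Fin j => θ i ω))| ≤
                C * 2 ^ (d * K * r) * (|DD (exf d K) (fun i : Fin j => θ i ω)| / κ) := by
              intro h4
              have h5 := h4 (exf d K j)
              rw [coeff_pol (fun l hl e => by
                have := exf_inj (hl.trans hj') hj' e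
                omega)] at h5
              have h6 : C * 2 ^ (d * K * r) * (|DD (exf d K) (fun i : Fin j => θ i ω)| / κ) =
                  |DD (exf d K) (fun i : Fin j => θ i ω)| / 2 := by
                rw [hκ]
                field_simp
              rw [h6] at h5
              linarith
            rw [if_neg (not_not.2 hb1), if_pos ⟨⟨hsm, hne⟩, hco⟩]
            linarith [h0 ω]
          · rw [if_pos hb1]
            have := h0 ω
            split_ifs <;> linarith
      refine h3.trans ((add_le_add h1 h2).trans (le_of_eq ?_))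
      push_cast
      ring
  have h1 := key (nn d K) le_rfl
  have hC1 : 0 ≤ (2 * C) ^ (nn d K) := by positivity
  have hr' : (1 : ℝ) ≤ r := by exact_mod_cast hr
  have h2 : Pb p (fun ω => ¬ 1 ≤ ((2 * C) ^ (nn d K) + C) * 2 ^ (nn d K * (d * K * r)) *
      |DD (exf d K) (fun i : Fin (nn d K) => θ i ω)|) ≤
      Pb p (fun ω => ¬ 1 ≤ κ ^ (nn d K) * |DD (exf d K) (fun i : Fin (nn d K) => θ i ω)|) := by
    refine Pb_mono h0 fun ω h h' => h ?_
    refine h'.trans (mul_le_mul_of_nonneg_right ?_ (abs_nonneg _))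
    rw [hκ, mul_pow, ← pow_mul, mul_comm (d * K * r)]
    refine mul_le_mul_of_nonneg_right ?_ (by positivity)
    linarith
  refine h2.trans (h1.trans ?_)
  · refine mul_le_mul_of_nonneg_left ?_ (Nat.cast_nonneg _)
    have h4 : C / r ≤ ((2 * C) ^ (nn d K) + C) / r :=
      div_le_div_of_nonneg_right (by linarith) (by positivity)
    linarith

end Pool.RM
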